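import Pool.Agent.TH868.CT.Far

/-!
Second moments of weighted numbers of visited points in separated blocks.
-/

set_option autoImplicit false
set_option maxHeartbeats 1000000

namespace TH868.CT

open H974 Finset H731C H389KP

/-- the weighted number of points of `T` with the property `U` -/
noncomputable def Zg (U : ℤ → Finset Edg → Prop) (T : Finset ℤ) (u : ℤ → ℝ)
    (F : Finset Edg) : ℝ := ∑ x ∈ T, u x / ps x * ind (U x F)

theorem Zg_nonneg {U : ℤ → Finset Edg → Prop} {T : Finset ℤ} (hT : ∀ x ∈ T, 1 ≤ x) {u : ℤ → ℝ}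
    (hu : ∀ x ∈ T, 0 ≤ u x) (F : Finset Edg) : 0 ≤ Zg U T u F := by
  unfold Zg
  apply Finset.sum_nonneg
  intro x hx
  exact mul_nonneg (div_nonneg (hu x hx) (ps_pos (by have := hT x hx; omega)).le) (ind_nonneg _)

theorem Zg_le {U : ℤ → Finset Edg → Prop} {T : Finset ℤ} (hT : ∀ x ∈ T, 1 ≤ x) {u : ℤ → ℝ}
    (hu : ∀ x ∈ T, 0 ≤ u x) (F : Finset Edg) : Zg U T u F ≤ ∑ x ∈ T, u x / ps x := by
  unfold Zg
  apply Finset.sum_le_sum
  intro x hx
  have h1 : 0 ≤ u x / ps x := div_nonneg (hu x hx) (ps_pos (by have := hT x hx; omega)).le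
  calc u x / ps x * ind (U x F) ≤ u x / ps x * 1 :=
        mul_le_mul_of_nonneg_left (ind_le_one _) h1
    _ = u x / ps x := mul_one _

theorem Zg_mean {U : ℤ → Finset Edg → Prop} {c : ℝ} {T : Finset ℤ} (hT : ∀ x ∈ T, 1 ≤ x)
    {u : ℤ → ℝ} (hu : ∀ x ∈ T, 0 ≤ u x) {S : Finset Edg}
    (h : ∀ x ∈ T, c * ps x ≤ P2 S (U x)) :
    c * ∑ x ∈ T, u x ≤ H934E.EE S (Zg U T u) := by
  unfold Zg H934E.EE
  rw [Ex_sum, Finset.mul_sum]
  apply Finset.sum_le_sum
  intro x hx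
  rw [Ex_mul_left]
  have hp := ps_pos (n := x) (by have := hT x hx; omega)
  have h1 := h x hx
  calc c * u x = u x / ps x * (c * ps x) := by field_simp
    _ ≤ _ := mul_le_mul_of_nonneg_left h1 (div_nonneg (hu x hx) hp.le)

theorem Zg_mul {U : ℤ → Finset Edg → Prop} {C : ℝ} {S T : Finset ℤ} (hS : ∀ x ∈ S, 1 ≤ x)
    (hT : ∀ x ∈ T, 1 ≤ x) {v w : ℤ → ℝ}
    (hv : ∀ x ∈ S, 0 ≤ v x) (hw : ∀ x ∈ T, 0 ≤ w x) {B : Finset Edg}
    (h : ∀ x ∈ S, ∀ y ∈ T, P2 B (fun F => U x F ∧ U y F) ≤ C * (ps x * ps y * kern x y)) :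
    H934E.EE B (fun F => Zg U S v F * Zg U T w F) ≤
      C * ∑ x ∈ S, ∑ y ∈ T, v x * w y * kern x y := by
  unfold Zg H934E.EE
  simp only [Finset.sum_mul_sum]
  rw [Ex_sum, Finset.mul_sum]
  apply Finset.sum_le_sum
  intro x hx
  rw [Ex_sum, Finset.mul_sum]
  apply Finset.sum_le_sum
  intro y hy
  have hpx := ps_pos (n := x) (by have := hS x hx; omega)
  have hpy := ps_pos (n := y) (by have := hT y hy; omega)
  have h1 := h x hx y hy
  have e : Ex (fun _ => (1/2 : ℝ)) B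
      (fun F => v x / ps x * ind (U x F) * (w y / ps y * ind (U y F))) =
      (v x / ps x * (w y / ps y)) * P2 B (fun F => U x F ∧ U y F) := by
    unfold P2 Pr
    rw [← Ex_mul_left]
    apply Ex_congr
    intro F _
    rw [ind_and]
    ring
  rw [e]
  have h2 : 0 ≤ v x / ps x * (w y / ps y) :=
    mul_nonneg (div_nonneg (hv x hx) hpx.le) (div_nonneg (hw y hy) hpy.le)
  calc _ ≤ v x / ps x * (w y / ps y) * (C * (ps x * ps y * kern x y)) :=
        mul_le_mul_of_nonneg_left h1 h2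
    _ = C * (v x * w y * kern x y) := by field_simp

/-- the kernel at points of different blocks -/
theorem kern_far {x y : ℤ} (hx : 1 ≤ x) (h : 2 * x ≤ y) : kern x y ≤ 2 := by
  rw [kern_le (by omega)]
  have h1 : (1 : ℝ) ≤ x := by exact_mod_cast hx
  have h2 : (2 : ℝ) * x ≤ y := by exact_mod_cast h
  have h3 : (0 : ℝ) < ((y - x : ℤ) : ℝ) + 1 := by push_cast; linarith
  calc ((y : ℝ) / (((y - x : ℤ) : ℝ) + 1)) ^ ((1 : ℝ) / 3) ≤ (2 : ℝ) ^ ((1 : ℝ) / 3) := by
        apply Real.rpow_le_rpow (div_nonneg (by linarith) h3.le) _ (by norm_num)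
        rw [div_le_iff₀ h3]
        push_cast
        linarith
    _ ≤ 2 ^ (1 : ℝ) := Real.rpow_le_rpow_of_exponent_le (by norm_num) (by norm_num)
    _ = 2 := Real.rpow_one _

/-- the total weight of the blocks -/
noncomputable def XX (R : ℤ) (n : ℕ) (T : ℕ → Finset ℤ) (u : ℕ → ℤ → ℝ) (F : Finset Edg) : ℝ :=
  ∑ k ∈ range n, Zg (UF R) (T k) (u k) F

theorem block_bound : ∃ c₁ c₂ : ℝ, 0 < c₁ ∧ 0 < c₂ ∧ ∀ (R N : ℤ) (n : ℕ) (T : ℕ → Finset ℤ)
    (u : ℕ → ℤ → ℝ), 0 ≤ R →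
    (∀ k < n, ∀ x ∈ T k, 3 * (R + 1) ≤ x ∧ 40 * x ≤ N ∧ 0 ≤ u k x) →
    (∀ j k, j < k → k < n → ∀ x ∈ T j, ∀ y ∈ T k, 2 * x ≤ y) →
    (∀ k < n, en (T k) (u k) ≤ 2 * ∑ x ∈ T k, u k x) →
    1 ≤ ∑ k ∈ range n, ∑ x ∈ T k, u k x →
    c₂ ≤ P2 (VE (-N) N 0 N)
      (fun F => c₁ * (∑ k ∈ range n, ∑ x ∈ T k, u k x) / 2 ≤ XX R n T u F) := by
  obtain ⟨c, hc, h1⟩ := far_low
  obtain ⟨C, hC, h2⟩ := two_kern
  refine ⟨c, c ^ 2 / (16 * C), hc, by positivity, fun R N n T u hR hT hsep hen hs => ?_⟩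
  set s := ∑ k ∈ range n, ∑ x ∈ T k, u k x with hsdef
  have hT1 : ∀ k ∈ range n, ∀ x ∈ T k, 1 ≤ x := fun k hk x hx => by
    have := hT k (Finset.mem_range.mp hk) x hx
    omega
  have hu0 : ∀ k ∈ range n, ∀ x ∈ T k, 0 ≤ u k x := fun k hk x hx =>
    (hT k (Finset.mem_range.mp hk) x hx).2.2
  -- first moment
  have m1 : c * s ≤ H934E.EE (VE (-N) N 0 N) (XX R n T u) := by
    unfold XX H934E.EE
    rw [Ex_sum, hsdef, Finset.mul_sum]
    apply Finset.sum_le_sum
    intro k hk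
    have hk' := Finset.mem_range.mp hk
    exact Zg_mean (hT1 k hk) (hu0 k hk) (fun x hx => h1 R x N hR (hT k hk' x hx).1
      (hT k hk' x hx).2.1)
  -- second moment
  have hw : ∀ k ∈ range n, 0 ≤ ∑ x ∈ T k, u k x := fun k hk =>
    Finset.sum_nonneg (hu0 k hk)
  have m2 : H934E.EE (VE (-N) N 0 N) (fun F => XX R n T u F * XX R n T u F) ≤
      C * (4 * s ^ 2) := by
    have e1 : H934E.EE (VE (-N) N 0 N) (fun F => XX R n T u F * XX R n T u F) =
        ∑ j ∈ range n, ∑ k ∈ range n, H934E.EE (VE (-N) N 0 N)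
          (fun F => Zg (UF R) (T j) (u j) F * Zg (UF R) (T k) (u k) F) := by
      unfold XX H934E.EE
      simp only [Finset.sum_mul_sum]
      rw [Ex_sum]
      apply Finset.sum_congr rfl
      intro j _
      rw [Ex_sum]
    rw [e1]
    have e2 : ∀ j ∈ range n, ∀ k ∈ range n, H934E.EE (VE (-N) N 0 N)
        (fun F => Zg (UF R) (T j) (u j) F * Zg (UF R) (T k) (u k) F) ≤
        C * ∑ x ∈ T j, ∑ y ∈ T k, u j x * u k y * kern x y := by
      intro j hj k hk
      apply Zg_mul (hT1 j hj) (hT1 k hk) (hu0 j hj) (hu0 k hk)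
      intro x hx y hy
      have hx' := hT j (Finset.mem_range.mp hj) x hx
      have hy' := hT k (Finset.mem_range.mp hk) y hy
      refine le_trans (Pr_mono okhalf2 fun F _ hF => ?_)
        (h2 x y N (by omega) (by omega) (by omega) (by omega))
      exact ⟨UF_WX hF.1, UF_WX hF.2⟩
    have e3 : ∀ j ∈ range n, ∀ k ∈ range n, ∑ x ∈ T j, ∑ y ∈ T k, u j x * u k y * kern x y ≤
        2 * ((∑ x ∈ T j, u j x) * (∑ y ∈ T k, u k y)) +
          (if j = k then 2 * ∑ x ∈ T j, u j x else 0) := by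
      intro j hj k hk
      by_cases hjk : j = k
      · subst hjk
        rw [if_pos rfl]
        have h3 := hen j (Finset.mem_range.mp hj)
        unfold en at h3
        have h4 := hw j hj
        nlinarith
      · rw [if_neg hjk, add_zero, Finset.sum_mul_sum, Finset.mul_sum]
        apply Finset.sum_le_sum
        intro x hx
        rw [Finset.mul_sum]
        apply Finset.sum_le_sum
        intro y hy
        have hx1 := hT1 j hj x hx
        have hy1 := hT1 k hk y hy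
        have hk2 : kern x y ≤ 2 := by
          rcases lt_or_gt_of_ne hjk with hlt | hlt
          · exact kern_far hx1 (hsep j k hlt (Finset.mem_range.mp hk) x hx y hy)
          · rw [kern_comm]
            exact kern_far hy1 (hsep k j hlt (Finset.mem_range.mp hj) y hy x hx)
        have h5 := mul_nonneg (hu0 j hj x hx) (hu0 k hk y hy)
        nlinarith
    calc _ ≤ ∑ j ∈ range n, ∑ k ∈ range n, C * (2 * ((∑ x ∈ T j, u j x) * (∑ y ∈ T k, u k y)) +
          (if j = k then 2 * ∑ x ∈ T j, u j x else 0)) := by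
          apply Finset.sum_le_sum
          intro j hj
          apply Finset.sum_le_sum
          intro k hk
          exact (e2 j hj k hk).trans (mul_le_mul_of_nonneg_left (e3 j hj k hk) hC.le)
      _ = C * (2 * (s * s) + 2 * s) := by
          rw [hsdef]
          simp only [← Finset.mul_sum, Finset.sum_add_distrib, ← Finset.sum_mul]
          congr 2
          · rw [Finset.mul_sum]
            apply Finset.sum_congr rfl
            intro j hj
            rw [Finset.sum_ite_eq, if_pos hj]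
      _ ≤ C * (4 * s ^ 2) := by
          apply mul_le_mul_of_nonneg_left _ hC.le
          nlinarith
  have hs0 : 0 < s := by linarith
  have h3 := H934E.paley (S := VE (-N) N 0 N) (f := XX R n T u)
    (fun F _ => Finset.sum_nonneg (fun k hk => Zg_nonneg (hT1 k hk) (hu0 k hk) F))
    (m := c * s) (V := C * (4 * s ^ 2)) (by positivity) (by positivity) m1 m2
  have e : (c * s) ^ 2 / (4 * (C * (4 * s ^ 2))) = c ^ 2 / (16 * C) := by
    field_simp
    ring
  rw [e] at h3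
  exact h3

/-- the same together with an event which depends on the half-box of radius `R` -/
theorem block_bound2 : ∃ c₁ c₂ : ℝ, 0 < c₁ ∧ 0 < c₂ ∧ ∀ (R N : ℤ) (n : ℕ) (T : ℕ → Finset ℤ)
    (u : ℕ → ℤ → ℝ) (Q : Finset Edg → Prop), 0 ≤ R → R ≤ N →
    (∀ k < n, ∀ x ∈ T k, 3 * (R + 1) ≤ x ∧ 40 * x ≤ N ∧ 0 ≤ u k x) →
    (∀ j k, j < k → k < n → ∀ x ∈ T j, ∀ y ∈ T k, 2 * x ≤ y) →
    (∀ k < n, en (T k) (u k) ≤ 2 * ∑ x ∈ T k, u k x) →
    1 ≤ ∑ k ∈ range n, ∑ x ∈ T k, u k x →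
    c₂ * P2 (VE (-N) N 0 N) (fun F => Q (F ∩ VE (-R) R 0 R)) ≤ P2 (VE (-N) N 0 N)
      (fun F => Q (F ∩ VE (-R) R 0 R) ∧
        c₁ * (∑ k ∈ range n, ∑ x ∈ T k, u k x) / 2 ≤ XX R n T u F) := by
  obtain ⟨c₁, c₂, hc₁, hc₂, h⟩ := block_bound
  refine ⟨c₁, c₂, hc₁, hc₂, fun R N n T u Q hR hRN hT hsep hen hs => ?_⟩
  have h1 := h R N n T u hR hT hsep hen hs
  have hsub : VE (-R) R 0 R ⊆ VE (-N) N 0 N := by
    rintro ⟨a, b, _ | _⟩ he
    · rw [mem_VE_false] at he ⊢; omega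
    · rw [mem_VE_true] at he ⊢; omega
  have hind := Pr_indep (p := fun _ : Edg => (1/2 : ℝ)) (U := VE (-N) N 0 N) (S := VE (-R) R 0 R)
    (T := VE (-N) N 0 N \ VE (-R) R 0 R) hsub Finset.sdiff_subset Finset.disjoint_sdiff
    (A := fun F => Q (F ∩ VE (-R) R 0 R))
    (B := fun F => c₁ * (∑ k ∈ range n, ∑ x ∈ T k, u k x) / 2 ≤ XX R n T u F)
    (fun F _ => by
      show Q _ ↔ Q _
      rw [Finset.inter_assoc, Finset.inter_self])
    (fun F hF => by
      have e : ∀ x, UF R x F ↔ UF R x (F ∩ (VE (-N) N 0 N \ VE (-R) R 0 R)) := by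
        intro x
        unfold UF
        have : F \ VE (-R) R 0 R = (F ∩ (VE (-N) N 0 N \ VE (-R) R 0 R)) \ VE (-R) R 0 R := by
          ext e
          simp only [Finset.mem_sdiff, Finset.mem_inter]
          constructor
          · rintro ⟨k1, k2⟩
            exact ⟨⟨k1, hF k1, k2⟩, k2⟩
          · rintro ⟨⟨k1, -, -⟩, k2⟩
            exact ⟨k1, k2⟩
        rw [← this]
      have e2 : XX R n T u F = XX R n T u (F ∩ (VE (-N) N 0 N \ VE (-R) R 0 R)) := by
        unfold XX Zg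
        apply Finset.sum_congr rfl
        intro k _
        apply Finset.sum_congr rfl
        intro x _
        rw [ind_congr (e x)]
      show _ ≤ _ ↔ _ ≤ _
      rw [← e2])
  rw [show P2 (VE (-N) N 0 N) (fun F => Q (F ∩ VE (-R) R 0 R) ∧
        c₁ * (∑ k ∈ range n, ∑ x ∈ T k, u k x) / 2 ≤ XX R n T u F) = _ from hind, mul_comm]
  exact mul_le_mul_of_nonneg_left h1 (Pr_nonneg okhalf2 _ _)

end TH868.CT
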