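import Pool.Agent.TH868.CT.Pts
import Pool.Agent.H934R2.Expl.Mom

/-!
Capacity bounds for the probability that the path visits a finite set of boundary points:
finite boxes.
-/

set_option autoImplicit false
set_option maxHeartbeats 1000000

namespace TH868.CT

open H974 Finset H731C H389KP

/-- The kernel. -/
noncomputable def kern (x y : ℤ) : ℝ :=
  (((max x y : ℤ) : ℝ) / (((|x - y| : ℤ) : ℝ) + 1)) ^ ((1 : ℝ) / 3)

theorem kern_comm (x y : ℤ) : kern x y = kern y x := by
  unfold kern; rw [max_comm, abs_sub_comm]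

theorem kern_le {x y : ℤ} (h : x ≤ y) :
    kern x y = ((y : ℝ) / (((y - x : ℤ) : ℝ) + 1)) ^ ((1 : ℝ) / 3) := by
  unfold kern
  rw [max_eq_right h, abs_sub_comm, abs_of_nonneg (by omega)]

theorem kern_ge_one {x y : ℤ} (hx : 1 ≤ x) (hy : 1 ≤ y) : 1 ≤ kern x y := by
  unfold kern
  apply Real.one_le_rpow _ (by norm_num)
  have h1 : (0 : ℤ) ≤ |x - y| := abs_nonneg _
  have h2 : |x - y| + 1 ≤ max x y := by
    rcases le_total x y with h | h
    · rw [max_eq_right h, abs_sub_comm, abs_of_nonneg (by omega)]; omega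
    · rw [max_eq_left h, abs_of_nonneg (by omega)]; omega
  have h3 : (0 : ℝ) ≤ ((|x - y| : ℤ) : ℝ) := by exact_mod_cast h1
  rw [le_div_iff₀ (by linarith), one_mul]
  exact_mod_cast h2

theorem kern_nonneg {x y : ℤ} (hx : 1 ≤ x) (hy : 1 ≤ y) : 0 ≤ kern x y :=
  le_trans zero_le_one (kern_ge_one hx hy)

theorem ps_div {x y : ℤ} (hx : 0 ≤ x) (hxy : x ≤ y) :
    ps (y - x) / ps y = (((y : ℝ) + 1) / (((y - x : ℤ) : ℝ) + 1)) ^ ((1 : ℝ) / 3) := by
  unfold ps
  have h1 : (0 : ℝ) ≤ x := by exact_mod_cast hx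
  have h2 : (x : ℝ) ≤ y := by exact_mod_cast hxy
  rw [← Real.div_rpow (by push_cast; apply div_nonneg zero_le_one; linarith)
    (by apply div_nonneg zero_le_one; linarith)]
  congr 1
  have h3 : ((y - x : ℤ) : ℝ) + 1 ≠ 0 := by push_cast; linarith
  have h4 : (y : ℝ) + 1 ≠ 0 := by linarith
  field_simp

/-- upper comparison -/
theorem ps_div_le {x y : ℤ} (hx : 0 ≤ x) (hy : 1 ≤ y) (hxy : x ≤ y) :
    ps (y - x) / ps y ≤ 2 * kern x y := by
  rw [ps_div hx hxy, kern_le hxy]
  have h1 : (0 : ℝ) ≤ x := by exact_mod_cast hx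
  have h2 : (x : ℝ) ≤ y := by exact_mod_cast hxy
  have h3 : (1 : ℝ) ≤ y := by exact_mod_cast hy
  have h4 : (0 : ℝ) < ((y - x : ℤ) : ℝ) + 1 := by push_cast; linarith
  calc (((y : ℝ) + 1) / (((y - x : ℤ) : ℝ) + 1)) ^ ((1 : ℝ) / 3)
      ≤ (2 * ((y : ℝ) / (((y - x : ℤ) : ℝ) + 1))) ^ ((1 : ℝ) / 3) := by
        apply Real.rpow_le_rpow (by positivity) _ (by norm_num)
        rw [← mul_div_assoc]
        apply div_le_div_of_nonneg_right _ h4.le
        linarith
    _ = 2 ^ ((1 : ℝ) / 3) * ((y : ℝ) / (((y - x : ℤ) : ℝ) + 1)) ^ ((1 : ℝ) / 3) := by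
        rw [Real.mul_rpow (by norm_num) (by positivity)]
    _ ≤ 2 * ((y : ℝ) / (((y - x : ℤ) : ℝ) + 1)) ^ ((1 : ℝ) / 3) := by
        apply mul_le_mul_of_nonneg_right _ (by positivity)
        calc (2 : ℝ) ^ ((1 : ℝ) / 3) ≤ 2 ^ (1 : ℝ) :=
              Real.rpow_le_rpow_of_exponent_le (by norm_num) (by norm_num)
          _ = 2 := Real.rpow_one _

/-- lower comparison -/
theorem kern_le_ps {x y : ℤ} (hx : 0 ≤ x) (hy : 1 ≤ y) (hxy : x ≤ y) :
    kern x y ≤ ps (y - x) / ps y := by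
  rw [ps_div hx hxy, kern_le hxy]
  have h1 : (0 : ℝ) ≤ x := by exact_mod_cast hx
  have h2 : (x : ℝ) ≤ y := by exact_mod_cast hxy
  have h3 : (1 : ℝ) ≤ y := by exact_mod_cast hy
  have h4 : (0 : ℝ) < ((y - x : ℤ) : ℝ) + 1 := by push_cast; linarith
  apply Real.rpow_le_rpow (by positivity) _ (by norm_num)
  apply div_le_div_of_nonneg_right _ h4.le
  linarith

/-- The energy of a weight. -/
noncomputable def en (S : Finset ℤ) (v : ℤ → ℝ) : ℝ := ∑ x ∈ S, ∑ y ∈ S, v x * v y * kern x y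

theorem en_ge {S : Finset ℤ} (hS : ∀ x ∈ S, 1 ≤ x) {v : ℤ → ℝ} (hv : ∀ x ∈ S, 0 ≤ v x) :
    (∑ x ∈ S, v x) ^ 2 ≤ en S v := by
  unfold en
  rw [sq, Finset.sum_mul_sum]
  apply Finset.sum_le_sum
  intro x hx
  apply Finset.sum_le_sum
  intro y hy
  have := kern_ge_one (hS x hx) (hS y hy)
  have h2 := mul_nonneg (hv x hx) (hv y hy)
  nlinarith

/-- some point of `S` is visited -/
def Hit (S : Finset ℤ) (F : Finset Edg) : Prop := ∃ x ∈ S, WX 0 F (x, 0)

/-- the two-point bound in terms of the kernel -/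
theorem two_kern : ∃ C : ℝ, 0 < C ∧ ∀ x y N : ℤ, 1 ≤ x → 1 ≤ y → 4 * x ≤ N → 4 * y ≤ N →
    P2 (VE (-N) N 0 N) (fun F => WX 0 F (x, 0) ∧ WX 0 F (y, 0)) ≤
      C * (ps x * ps y * kern x y) := by
  obtain ⟨C1, hC1, h1⟩ := one_up
  obtain ⟨C2, hC2, h2⟩ := two_up
  have key : ∀ x y N : ℤ, 1 ≤ x → 1 ≤ y → 4 * x ≤ N → 4 * y ≤ N → x < y →
      P2 (VE (-N) N 0 N) (fun F => WX 0 F (x, 0) ∧ WX 0 F (y, 0)) ≤
      (2 * C1 + 2 * C2) * (ps x * ps y * kern x y) := by
    intro x y N hx hy hxN hyN hxy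
    refine (h2 x y N hx hxy hyN).trans ?_
    have h3 := ps_div_le (x := x) (y := y) (by omega) hy hxy.le
    have hpx := ps_pos (n := x) (by omega)
    have hpy := ps_pos (n := y) (by omega)
    rw [div_le_iff₀ hpy] at h3
    have hk := kern_nonneg hx hy
    calc C2 * (ps x * ps (y - x)) ≤ C2 * (ps x * (2 * kern x y * ps y)) := by
          apply mul_le_mul_of_nonneg_left _ hC2.le
          exact mul_le_mul_of_nonneg_left h3 hpx.le
      _ = 2 * C2 * (ps x * ps y * kern x y) := by ring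
      _ ≤ (2 * C1 + 2 * C2) * (ps x * ps y * kern x y) := by
          apply mul_le_mul_of_nonneg_right _ (by positivity)
          linarith
  refine ⟨2 * C1 + 2 * C2, by positivity, fun x y N hx hy hxN hyN => ?_⟩
  rcases lt_trichotomy x y with h | h | h
  · exact key x y N hx hy hxN hyN h
  · subst h
    have h3 := ps_div_le (x := x) (y := x) (by omega) hy le_rfl
    rw [sub_self, ps_zero] at h3
    have hpx := ps_pos (n := x) (by omega)
    rw [div_le_iff₀ hpx] at h3
    have hk := kern_nonneg hx hx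
    calc P2 (VE (-N) N 0 N) (fun F => WX 0 F (x, 0) ∧ WX 0 F (x, 0))
        ≤ P2 (VE (-N) N 0 N) (fun F => WX 0 F (x, 0)) := Pr_mono okhalf2 (fun F _ hF => hF.1)
      _ ≤ C1 * ps x := h1 x N hx hxN
      _ = C1 * (ps x * 1) := by ring
      _ ≤ C1 * (ps x * (2 * kern x x * ps x)) := by
          apply mul_le_mul_of_nonneg_left _ hC1.le
          exact mul_le_mul_of_nonneg_left h3 hpx.le
      _ = 2 * C1 * (ps x * ps x * kern x x) := by ring
      _ ≤ (2 * C1 + 2 * C2) * (ps x * ps x * kern x x) := by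
          apply mul_le_mul_of_nonneg_right _ (by positivity)
          linarith
  · have h3 := key y x N hy hx hyN hxN h
    have e1 : P2 (VE (-N) N 0 N) (fun F => WX 0 F (x, 0) ∧ WX 0 F (y, 0)) =
        P2 (VE (-N) N 0 N) (fun F => WX 0 F (y, 0) ∧ WX 0 F (x, 0)) :=
      Pr_congr (fun F _ => and_comm)
    rw [e1, kern_comm x y, mul_comm (ps x)]
    exact h3

/-- the weighted number of visited points of `S` -/
noncomputable def Zf (S : Finset ℤ) (v : ℤ → ℝ) (F : Finset Edg) : ℝ :=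
  ∑ x ∈ S, v x / ps x * ind (WX 0 F (x, 0))

theorem Zf_nonneg {S : Finset ℤ} (hS : ∀ x ∈ S, 1 ≤ x) {v : ℤ → ℝ} (hv : ∀ x ∈ S, 0 ≤ v x)
    (F : Finset Edg) : 0 ≤ Zf S v F := by
  unfold Zf
  apply Finset.sum_nonneg
  intro x hx
  exact mul_nonneg (div_nonneg (hv x hx) (ps_pos (by have := hS x hx; omega)).le) (ind_nonneg _)

theorem Zf_mean {c : ℝ} {S : Finset ℤ} (hS : ∀ x ∈ S, 1 ≤ x) {v : ℤ → ℝ}
    (hv : ∀ x ∈ S, 0 ≤ v x) {N : ℤ}
    (h : ∀ x ∈ S, c * ps x ≤ P2 (VE (-N) N 0 N) (fun F => WX 0 F (x, 0))) :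
    c * ∑ x ∈ S, v x ≤ H934E.EE (VE (-N) N 0 N) (Zf S v) := by
  unfold Zf H934E.EE
  rw [Ex_sum, Finset.mul_sum]
  apply Finset.sum_le_sum
  intro x hx
  rw [Ex_mul_left]
  have hp := ps_pos (n := x) (by have := hS x hx; omega)
  have h1 := h x hx
  calc c * v x = v x / ps x * (c * ps x) := by field_simp
    _ ≤ _ := mul_le_mul_of_nonneg_left h1 (div_nonneg (hv x hx) hp.le)

theorem Zf_mul {C : ℝ} {S T : Finset ℤ} (hS : ∀ x ∈ S, 1 ≤ x) (hT : ∀ x ∈ T, 1 ≤ x)
    {v w : ℤ → ℝ}
    (hv : ∀ x ∈ S, 0 ≤ v x) (hw : ∀ x ∈ T, 0 ≤ w x) {N : ℤ}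
    (h : ∀ x ∈ S, ∀ y ∈ T, P2 (VE (-N) N 0 N) (fun F => WX 0 F (x, 0) ∧ WX 0 F (y, 0)) ≤
      C * (ps x * ps y * kern x y)) :
    H934E.EE (VE (-N) N 0 N) (fun F => Zf S v F * Zf T w F) ≤
      C * ∑ x ∈ S, ∑ y ∈ T, v x * w y * kern x y := by
  unfold Zf H934E.EE
  simp only [Finset.sum_mul_sum]
  rw [Ex_sum, Finset.mul_sum]
  apply Finset.sum_le_sum
  intro x hx
  rw [Ex_sum, Finset.mul_sum]
  apply Finset.sum_le_sum
  intro y hy
  have hpx := ps_pos (n := x) (by have := hS x hx; omega)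
  have hpy := ps_pos (n := y) (by have := hT y hy; omega)
  have h1 := h x hx y hy
  have e : Ex (fun _ => (1/2 : ℝ)) (VE (-N) N 0 N)
      (fun F => v x / ps x * ind (WX 0 F (x, 0)) * (w y / ps y * ind (WX 0 F (y, 0)))) =
      (v x / ps x * (w y / ps y)) *
        P2 (VE (-N) N 0 N) (fun F => WX 0 F (x, 0) ∧ WX 0 F (y, 0)) := by
    unfold P2 Pr
    rw [← Ex_mul_left]
    apply Ex_congr
    intro F _
    rw [ind_and]
    ring
  rw [e]
  have h2 : 0 ≤ v x / ps x * (w y / ps y) :=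
    mul_nonneg (div_nonneg (hv x hx) hpx.le) (div_nonneg (hw y hy) hpy.le)
  calc _ ≤ v x / ps x * (w y / ps y) * (C * (ps x * ps y * kern x y)) :=
        mul_le_mul_of_nonneg_left h1 h2
    _ = C * (v x * w y * kern x y) := by field_simp

/-- **Lower bound** in finite boxes. -/
theorem cap_low : ∃ c : ℝ, 0 < c ∧ ∀ (S : Finset ℤ) (N : ℤ), (∀ x ∈ S, 1 ≤ x ∧ 40 * x ≤ N) →
    ∀ v : ℤ → ℝ, (∀ x ∈ S, 0 ≤ v x) → ∑ x ∈ S, v x = 1 →
    c / en S v ≤ P2 (VE (-N) N 0 N) (Hit S) := by
  obtain ⟨c, hc, h1⟩ := one_low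
  obtain ⟨C, hC, h2⟩ := two_kern
  refine ⟨c ^ 2 / (4 * C), by positivity, fun S N hS v hv hv1 => ?_⟩
  have hS1 : ∀ x ∈ S, 1 ≤ x := fun x hx => (hS x hx).1
  have hen := en_ge hS1 hv
  rw [hv1] at hen
  have hen' : 0 < en S v := by linarith
  have m1 := Zf_mean (c := c) hS1 hv (N := N) (fun x hx => h1 x N (hS x hx).1 (hS x hx).2)
  rw [hv1, mul_one] at m1
  have m2 := Zf_mul (C := C) hS1 hS1 hv hv (N := N) (fun x hx y hy =>
    h2 x y N (hS x hx).1 (hS y hy).1 (by have := hS x hx; omega) (by have := hS y hy; omega))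
  have h3 := H934E.paley (S := VE (-N) N 0 N) (f := Zf S v) (fun F _ => Zf_nonneg hS1 hv F)
    hc (V := C * en S v) (by positivity) m1 m2
  have e : c ^ 2 / (4 * C) / en S v = c ^ 2 / (4 * (C * en S v)) := by
    rw [div_div]; ring_nf
  rw [e]
  refine h3.trans (Pr_mono okhalf2 fun F _ hF => ?_)
  by_contra hcon
  unfold Hit at hcon
  push Not at hcon
  have : Zf S v F = 0 := by
    unfold Zf
    apply Finset.sum_eq_zero
    intro x hx
    rw [ind_not_of (hcon x hx), mul_zero]
  rw [this] at hF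
  linarith

/-- at most one of pairwise incompatible events -/
theorem sum_ind_le {ι : Type*} (s : Finset ι) (A : ι → Prop) (B : Prop)
    (h1 : ∀ i ∈ s, A i → B) (h2 : ∀ i ∈ s, ∀ j ∈ s, i ≠ j → A i → ¬ A j) :
    ∑ i ∈ s, ind (A i) ≤ ind B := by
  by_cases h : ∃ i ∈ s, A i
  · obtain ⟨i, hi, hA⟩ := h
    rw [ind_of (h1 i hi hA), Finset.sum_eq_single_of_mem i hi, ind_of hA]
    intro j hj hji
    exact ind_not_of (fun hAj => h2 j hj i hi hji hAj hA)
  · push Not at h
    rw [Finset.sum_eq_zero (fun i hi => ind_not_of (h i hi))]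
    exact ind_nonneg _

theorem AX_disj {P : ℤ → Prop} {x y : ℤ} (hx : 0 < x) (hxy : x < y) (hP : P x) {F : Finset Edg}
    (h1 : AX P x F) : ¬ AX P y F := fun h2 => h2.2 x hP hx hxy h1.1

/-- **Upper bound** in finite boxes. -/
theorem cap_up : ∃ C : ℝ, 0 < C ∧ ∀ (S : Finset ℤ) (N : ℤ), (∀ x ∈ S, 1 ≤ x ∧ 40 * x ≤ N) →
    0 < P2 (VE (-N) N 0 N) (Hit S) →
    ∃ v : ℤ → ℝ, (∀ x ∈ S, 0 ≤ v x) ∧ ∑ x ∈ S, v x = 1 ∧
      P2 (VE (-N) N 0 N) (Hit S) ≤ C / en S v := by
  obtain ⟨C, hC, h1⟩ := one_up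
  obtain ⟨c, hc, h2⟩ := shift_low
  set c' := min c 1 with hc'
  have hc'0 : 0 < c' := lt_min hc one_pos
  refine ⟨2 * (C / c'), by positivity, fun S N hS hh => ?_⟩
  set h := P2 (VE (-N) N 0 N) (Hit S) with hdef
  set a : ℤ → ℝ := fun x => P2 (VE (-N) N 0 N) (AX (· ∈ S) x) with ha
  have ha0 : ∀ x, 0 ≤ a x := fun x => Pr_nonneg okhalf2 _ _
  have hS0 : ∀ x ∈ S, 1 ≤ x := fun x hx => (hS x hx).1
  -- the sum of the `a x`
  have hsum : ∑ x ∈ S, a x = h := by
    rw [hdef, ha]
    simp only [P2, Pr]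
    rw [← Ex_sum]
    apply Ex_congr
    intro F _
    apply le_antisymm
    · apply sum_ind_le
      · intro x hx hA
        exact ⟨x, hx, hA.1⟩
      · intro x hx y hy hne hA hB
        rcases lt_or_gt_of_ne hne with hlt | hlt
        · exact AX_disj (by have := hS0 x hx; omega) hlt hx hA hB
        · exact AX_disj (by have := hS0 y hy; omega) hlt hy hB hA
    · by_cases hH : Hit S F
      · rw [ind_of hH]
        -- the first visited point
        classical
        obtain ⟨x0, hx0, hW0⟩ := hH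
        have hne : (S.filter (fun x => WX 0 F (x, 0))).Nonempty :=
          ⟨x0, Finset.mem_filter.mpr ⟨hx0, hW0⟩⟩
        set m := (S.filter (fun x => WX 0 F (x, 0))).min' hne with hm
        have hmem := Finset.min'_mem _ hne
        rw [← hm, Finset.mem_filter] at hmem
        have hA : AX (· ∈ S) m F := by
          refine ⟨hmem.2, fun s hs _ hsm hWs => ?_⟩
          have h9 : m ≤ s := by
            rw [hm]
            exact Finset.min'_le _ s (Finset.mem_filter.mpr ⟨hs, hWs⟩)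
          omega
        have := Finset.single_le_sum (f := fun x => ind (AX (· ∈ S) x F))
          (fun i _ => ind_nonneg _) hmem.1
        rw [show (1 : ℝ) = ind (AX (· ∈ S) m F) from (ind_of hA).symm]
        exact this
      · rw [ind_not_of hH]
        exact Finset.sum_nonneg (fun i _ => ind_nonneg _)
  -- the potential is bounded
  have hpot : ∀ y ∈ S, ∑ x ∈ S.filter (· ≤ y), a x * kern x y ≤ C / c' := by
    intro y hy
    have hy1 := hS0 y hy
    have hyN := (hS y hy).2
    have hpy := ps_pos (n := y) (by omega)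
    have k1 : ∑ x ∈ S.filter (· ≤ y),
        P2 (VE (-N) N 0 N) (fun F => AX (· ∈ S) x F ∧ WX 0 F (y, 0)) ≤ C * ps y := by
      refine le_trans ?_ (h1 y N hy1 (by omega))
      simp only [P2, Pr]
      rw [← Ex_sum]
      apply Ex_mono okhalf2
      intro F _
      apply sum_ind_le
      · intro x _ hA
        exact hA.2
      · intro x hx z hz hne hA hB
        have hx' := (Finset.mem_filter.mp hx).1
        have hz' := (Finset.mem_filter.mp hz).1
        rcases lt_or_gt_of_ne hne with hlt | hlt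
        · exact AX_disj (by have := hS0 x hx'; omega) hlt hx' hA.1 hB.1
        · exact AX_disj (by have := hS0 z hz'; omega) hlt hz' hB.1 hA.1
    have k2 : ∀ x ∈ S.filter (· ≤ y), c' * (a x * ps (y - x)) ≤
        P2 (VE (-N) N 0 N) (fun F => AX (· ∈ S) x F ∧ WX 0 F (y, 0)) := by
      intro x hx
      obtain ⟨hxS, hxy⟩ := Finset.mem_filter.mp hx
      have hx1 := hS0 x hxS
      rcases lt_or_eq_of_le hxy with hlt | heq
      · refine le_trans ?_ (domination (by omega) hlt _)
        have h3 := h2 x y N (by omega) hlt (by omega)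
        have hpp := ps_pos (n := y - x) (by omega)
        calc c' * (a x * ps (y - x)) = a x * (c' * ps (y - x)) := by ring
          _ ≤ a x * (c * ps (y - x)) := by
            apply mul_le_mul_of_nonneg_left _ (ha0 x)
            exact mul_le_mul_of_nonneg_right (min_le_left _ _) hpp.le
          _ ≤ _ := mul_le_mul_of_nonneg_left h3 (ha0 x)
      · subst heq
        rw [sub_self, ps_zero, mul_one]
        calc c' * a x ≤ 1 * a x := mul_le_mul_of_nonneg_right (min_le_right _ _) (ha0 x)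
          _ = a x := one_mul _
          _ ≤ _ := Pr_mono okhalf2 (fun F _ hF => ⟨hF, hF.1⟩)
    rw [le_div_iff₀ hc'0]
    calc (∑ x ∈ S.filter (· ≤ y), a x * kern x y) * c'
        ≤ ∑ x ∈ S.filter (· ≤ y), c' * (a x * ps (y - x)) / ps y := by
          rw [Finset.sum_mul]
          apply Finset.sum_le_sum
          intro x hx
          obtain ⟨hxS, hxy⟩ := Finset.mem_filter.mp hx
          have hx1 := hS0 x hxS
          have h3 := kern_le_ps (x := x) (y := y) (by omega) hy1 hxy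
          calc a x * kern x y * c' = c' * a x * kern x y := by ring
            _ ≤ c' * a x * (ps (y - x) / ps y) :=
              mul_le_mul_of_nonneg_left h3 (mul_nonneg hc'0.le (ha0 x))
            _ = c' * (a x * ps (y - x)) / ps y := by ring
      _ = (∑ x ∈ S.filter (· ≤ y), c' * (a x * ps (y - x))) / ps y := by
          rw [Finset.sum_div]
      _ ≤ (C * ps y) / ps y := by
          apply div_le_div_of_nonneg_right _ hpy.le
          exact (Finset.sum_le_sum k2).trans k1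
      _ = C := by field_simp
  -- the energy of `a`
  have hen : en S a ≤ 2 * (C / c') * h := by
    have e1 : en S a ≤ ∑ y ∈ S, 2 * (a y * ∑ x ∈ S.filter (· ≤ y), a x * kern x y) := by
      have e2 : en S a ≤ ∑ y ∈ S, ∑ x ∈ S, ((if x ≤ y then a x * a y * kern x y else 0) +
          (if y ≤ x then a x * a y * kern x y else 0)) := by
        unfold en
        rw [Finset.sum_comm]
        apply Finset.sum_le_sum
        intro y hy
        apply Finset.sum_le_sum
        intro x hx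
        have h0 : 0 ≤ a x * a y * kern x y :=
          mul_nonneg (mul_nonneg (ha0 x) (ha0 y)) (kern_nonneg (hS0 x hx) (hS0 y hy))
        split_ifs <;> first | linarith | (exfalso; omega)
      refine e2.trans (le_of_eq ?_)
      simp only [Finset.sum_add_distrib]
      have e3 : ∑ y ∈ S, ∑ x ∈ S, (if y ≤ x then a x * a y * kern x y else 0) =
          ∑ y ∈ S, ∑ x ∈ S, (if x ≤ y then a x * a y * kern x y else 0) := by
        rw [Finset.sum_comm]
        apply Finset.sum_congr rfl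
        intro y _
        apply Finset.sum_congr rfl
        intro x _
        rw [kern_comm, mul_comm (a x)]
      rw [e3, ← Finset.sum_add_distrib]
      apply Finset.sum_congr rfl
      intro y _
      rw [Finset.sum_filter, ← two_mul]
      congr 1
      rw [Finset.mul_sum]
      apply Finset.sum_congr rfl
      intro x _
      split_ifs
      · ring
      · ring
    refine e1.trans ?_
    calc ∑ y ∈ S, 2 * (a y * ∑ x ∈ S.filter (· ≤ y), a x * kern x y)
        ≤ ∑ y ∈ S, 2 * (a y * (C / c')) := by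
          apply Finset.sum_le_sum
          intro y hy
          apply mul_le_mul_of_nonneg_left _ (by norm_num)
          exact mul_le_mul_of_nonneg_left (hpot y hy) (ha0 y)
      _ = 2 * (C / c') * ∑ y ∈ S, a y := by
          rw [Finset.mul_sum]
          apply Finset.sum_congr rfl
          intro y _
          ring
      _ = 2 * (C / c') * h := by rw [hsum]
  refine ⟨fun x => a x / h, fun x _ => div_nonneg (ha0 x) hh.le, ?_, ?_⟩
  · rw [← Finset.sum_div, hsum, div_self hh.ne']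
  · have e : en S (fun x => a x / h) = en S a / h ^ 2 := by
      unfold en
      rw [Finset.sum_div]
      apply Finset.sum_congr rfl
      intro x _
      rw [Finset.sum_div]
      apply Finset.sum_congr rfl
      intro y _
      field_simp
    have hpos : 0 < en S a := by
      have := en_ge hS0 (v := a) (fun x _ => ha0 x)
      rw [hsum] at this
      have : 0 < h ^ 2 := by positivity
      linarith
    rw [e, le_div_iff₀ (by positivity)]
    calc h * (en S a / h ^ 2) ≤ h * (2 * (C / c') * h / h ^ 2) := by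
          apply mul_le_mul_of_nonneg_left _ hh.le
          exact div_le_div_of_nonneg_right hen (by positivity)
      _ = 2 * (C / c') := by field_simp

end TH868.CT
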