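import Pool.Agent.H731R3.Cardy.NoHalf

/-!
Duality in the half-plane for the cluster of a half-line of the boundary.
-/

set_option autoImplicit false
set_option maxHeartbeats 1000000

namespace TH868.CT

open H974 Finset H731C

/-- The horizontal boundary edges to the left of `p`. -/
def NX (p : ℤ) : Set Edg := {e | e.1 < p ∧ e.2.1 = 0 ∧ e.2.2 = true}

/-- Edges of the half-plane. -/
def HPl : Set Edg := {e | 0 ≤ e.2.1}

/-- `v` is joined to the half-line `(-∞, p]` of the boundary. -/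
def WX (p : ℤ) (F : Finset Edg) (v : Vtx) : Prop := Reach (↑F ∪ NX p) (p, 0) v

/-- The closed edges. -/
def CG (p : ℤ) (F : Finset Edg) : Set Edg := (↑F ∪ NX p)ᶜ ∩ HPl

theorem mem_box {e : Edg} {M : ℤ} (h0 : 0 ≤ e.2.1) (hM : |e.1| + |e.2.1| + 1 ≤ M) :
    e ∈ (↑(RE (-M) M 0 M) : Set Edg) := by
  obtain ⟨x, y, b⟩ := e
  simp only at h0 hM
  have h1 := le_abs_self x
  have h2 := neg_abs_le x
  have h3 := le_abs_self y
  have h4 := abs_nonneg x
  rw [Finset.mem_coe]
  cases b
  · rw [mem_RE_false]; omega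
  · rw [mem_RE_true]; omega

theorem reach_box {G : Set Edg} (hG : G ⊆ HPl) {u v : Vtx} (h : Reach G u v) :
    ∃ M0 : ℤ, ∀ M, M0 ≤ M → Reach (G ∩ ↑(RE (-M) M 0 M)) u v := by
  induction h with
  | refl => exact ⟨0, fun M _ => Reach.refl _ _⟩
  | tail _ hs ih =>
    obtain ⟨M0, hM0⟩ := ih
    obtain ⟨e, he, hc⟩ := hs
    refine ⟨max M0 (|e.1| + |e.2.1| + 1), fun M hM => (hM0 M (by omega)).trans ?_⟩
    exact Adj.reach ⟨e, ⟨he, mem_box (hG he) (by omega)⟩, hc⟩

theorem dreach_box {G : Set Edg} (hG : G ⊆ HPl) {u v : Vtx} (h : DReach G u v) :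
    ∃ M0 : ℤ, ∀ M, M0 ≤ M → DReach (G ∩ ↑(RE (-M) M 0 M)) u v := by
  induction h with
  | refl => exact ⟨0, fun M _ => DReach.refl _ _⟩
  | tail _ hs ih =>
    obtain ⟨M0, hM0⟩ := ih
    obtain ⟨e, he, hc⟩ := hs
    refine ⟨max M0 (|e.1| + |e.2.1| + 1), fun M hM => (hM0 M (by omega)).trans ?_⟩
    exact DAdj.reach ⟨e, ⟨he, mem_box (hG he) (by omega)⟩, hc⟩

/-- A closed dual path between bottom faces on both sides of `s` separates `s`. -/
theorem du_easy {p i j s : ℤ} {F : Finset Edg} (hF : ∀ e ∈ F, 0 ≤ e.2.1) (hp : p ≤ i)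
    (h1 : i < s) (h2 : s ≤ j) (hd : DReach (CG p F) (i, -1) (j, -1)) : ¬ WX p F (s, 0) := by
  intro hW
  obtain ⟨M1, hM1⟩ := dreach_box Set.inter_subset_right hd
  have hsub : (↑F ∪ NX p : Set Edg) ⊆ HPl := by
    rintro e (he | he)
    · exact hF e (Finset.mem_coe.mp he)
    · show 0 ≤ e.2.1
      rw [he.2.1]
  obtain ⟨M2, hM2⟩ := reach_box hsub hW.symm
  have k1 := hM1 (max M1 M2) (le_max_left _ _)
  have k2 := hM2 (max M1 M2) (le_max_right _ _)
  refine no_half (F := ↑F ∪ NX p) (p := i) (q := j) (u := s) (v := p) ⟨h1, h2⟩ (Or.inl hp) ?_ k2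
  exact k1.mono (Set.inter_subset_inter_left _ Set.inter_subset_left)

theorem vline {G : Set Edg} {x a b : ℤ} (hab : a ≤ b)
    (h : ∀ y, a < y → y ≤ b → ((x, y, true) : Edg) ∈ G) : DReach G (x, a) (x, b) := by
  obtain ⟨n, hn⟩ := Int.eq_ofNat_of_zero_le (sub_nonneg.mpr hab)
  have key : ∀ k : ℕ, a + k ≤ b → DReach G (x, a) (x, a + k) := by
    intro k
    induction k with
    | zero => intro _; simpa using DReach.refl G (x, a)
    | succ k ih =>
      intro hk
      push_cast at hk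
      refine (ih (by omega)).trans (DAdj.reach ⟨(x, a + k + 1, true), h _ (by omega) (by omega),
        Or.inl ⟨?_, ?_⟩⟩)
      · rw [dsrc_true]; congr 1; ring
      · rw [dtgt_mk]; push_cast; congr 1; ring
  have h3 := key n (by omega)
  have e : b = a + n := by omega
  rw [e]; exact h3

theorem hline {G : Set Edg} {a b y : ℤ} (hab : a ≤ b)
    (h : ∀ x, a < x → x ≤ b → ((x, y, false) : Edg) ∈ G) : DReach G (a, y) (b, y) := by
  obtain ⟨n, hn⟩ := Int.eq_ofNat_of_zero_le (sub_nonneg.mpr hab)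
  have key : ∀ k : ℕ, a + k ≤ b → DReach G (a, y) (a + k, y) := by
    intro k
    induction k with
    | zero => intro _; simpa using DReach.refl G (a, y)
    | succ k ih =>
      intro hk
      push_cast at hk
      refine (ih (by omega)).trans (DAdj.reach ⟨(a + k + 1, y, false), h _ (by omega) (by omega),
        Or.inl ⟨?_, ?_⟩⟩)
      · rw [dsrc_false]; congr 1; ring
      · rw [dtgt_mk]; push_cast; congr 1; ring
  have h3 := key n (by omega)
  have e : b = a + n := by omega
  rw [e]; exact h3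

/-- Faces outside of the box are joined to bottom faces far to the right. -/
theorem outer {p N M : ℤ} {F : Finset Edg} (hF : F ⊆ VE (-N) N 0 N) (hM : N + 1 ≤ M) (hM0 : 1 ≤ M)
    (hp : p ≤ M) {f : Vtx} (hf0 : 0 ≤ f.2) (hf : f.1 ≤ -M ∨ M ≤ f.1 ∨ M ≤ f.2) :
    ∃ J : ℤ, M ≤ J ∧ DReach (CG p F) f (J, -1) := by
  obtain ⟨x0, y0⟩ := f
  simp only at hf0 hf
  have hT : ∀ x y : ℤ, 0 ≤ y → (x < -N ∨ N ≤ x ∨ N < y) → (p ≤ x ∨ y ≠ 0) →
      ((x, y, true) : Edg) ∈ CG p F := by
    intro x y hy h1 h2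
    refine ⟨?_, hy⟩
    rintro (h3 | h3)
    · have := hF (Finset.mem_coe.mp h3)
      rw [mem_VE_true] at this
      omega
    · have a1 : x < p := h3.1
      have a2 : y = 0 := h3.2.1
      omega
  have hH : ∀ x y : ℤ, N ≤ y → 0 ≤ y → ((x, y, false) : Edg) ∈ CG p F := by
    intro x y h1 hy
    refine ⟨?_, hy⟩
    rintro (h3 | h3)
    · have := hF (Finset.mem_coe.mp h3)
      rw [mem_VE_false] at this
      omega
    · exact absurd h3.2.2 (by simp)
  refine ⟨max x0 M, le_max_right _ _, ?_⟩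
  have s1 : DReach (CG p F) (x0, y0) (x0, max y0 M) := by
    apply vline (le_max_left _ _)
    intro y h1 h2
    refine hT _ _ (by omega) ?_ (Or.inr (by omega))
    omega
  have s2 : DReach (CG p F) (x0, max y0 M) (max x0 M, max y0 M) := by
    apply hline (le_max_left _ _)
    intro x h1 h2
    exact hH _ _ (by omega) (by omega)
  have s3 : DReach (CG p F) (max x0 M, -1) (max x0 M, max y0 M) := by
    apply vline (by omega)
    intro y h1 h2
    exact hT _ _ (by omega) (by omega) (Or.inl (by omega))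
  exact s1.trans (s2.trans s3.symm)

/-- If `s` is not joined to `(-∞, p]` then a closed dual path separates it. -/
theorem du_hard {p s N : ℤ} {F : Finset Edg} (hF : F ⊆ VE (-N) N 0 N) (hps : p < s)
    (hW : ¬ WX p F (s, 0)) :
    ∃ i j, (p ≤ i ∧ i < s) ∧ s ≤ j ∧ DReach (CG p F) (i, -1) (j, -1) := by
  by_contra hcon
  have hcon' : ∀ i j, p ≤ i → i < s → s ≤ j → ¬ DReach (CG p F) (i, -1) (j, -1) :=
    fun i j h1 h2 h3 h4 => hcon ⟨i, j, ⟨h1, h2⟩, h3, h4⟩
  obtain ⟨M, hM⟩ : ∃ M : ℤ, M = |N| + |s| + |p| + 2 := ⟨_, rfl⟩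
  have hN := le_abs_self N
  have hs := le_abs_self s
  have hs2 := neg_abs_le s
  have hp := le_abs_self p
  have hp2 := neg_abs_le p
  have hN0 := abs_nonneg N
  obtain ⟨C, hC⟩ : ∃ C : Vtx → Prop,
      C = fun f => ∃ i, (p ≤ i ∧ i < s) ∧ DReach (CG p F) (i, -1) f := ⟨_, rfl⟩
  obtain ⟨z, hz⟩ : ∃ z : Edg → ZMod 2,
      z = fun e => b2 (¬ (WX p F (src e) ↔ WX p F (tgt e))) := ⟨_, rfl⟩
  obtain ⟨w, hw⟩ : ∃ w : ℤ → ℤ → ZMod 2, w = fun x y => b2 (WX p F (x, y)) := ⟨_, rfl⟩
  obtain ⟨c, hc⟩ : ∃ c : ℤ → ℤ → ZMod 2, c = fun x y => b2 (C (x, y)) := ⟨_, rfl⟩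
  -- a
  have ha : ∀ e : Edg, 0 ≤ e.2.1 → z e ≠ 0 → e ∈ CG p F := by
    intro e he0 hze
    refine ⟨?_, he0⟩
    intro hmem
    apply hze
    rw [hz]
    apply b2_not_of
    rw [not_not]
    constructor
    · intro h; exact h.trans (Adj.reach ⟨e, hmem, Or.inl ⟨rfl, rfl⟩⟩)
    · intro h; exact h.trans (Adj.reach ⟨e, hmem, Or.inr ⟨rfl, rfl⟩⟩)
  have hb : ∀ e ∈ CG p F, (C (dsrc e) ↔ C (dtgt e)) := by
    intro e he
    rw [hC]
    constructor
    · rintro ⟨i, hi, h⟩
      exact ⟨i, hi, h.trans (DAdj.reach ⟨e, he, Or.inl ⟨rfl, rfl⟩⟩)⟩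
    · rintro ⟨i, hi, h⟩
      exact ⟨i, hi, h.trans (DAdj.reach ⟨e, he, Or.inr ⟨rfl, rfl⟩⟩)⟩
  have hcin : ∀ x y, 0 ≤ y → C (x, y) → -M < x ∧ x < M ∧ y < M := by
    intro x y hy h
    rw [hC] at h
    obtain ⟨i, hi, h⟩ := h
    by_contra hneg
    obtain ⟨J, hJ, hr⟩ := outer (p := p) (M := M) hF (by omega) (by omega) (by omega)
      (f := (x, y)) hy (by simp only; omega)
    exact hcon' i J hi.1 hi.2 (by omega) (h.trans hr)
  have hcz : ∀ x y, 0 ≤ y → (x ≤ -M ∨ M ≤ x ∨ M ≤ y) → c x y = 0 := by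
    intro x y hy h
    rw [hc]
    apply b2_not_of
    intro h2
    have := hcin x y hy h2
    omega
  -- the coboundary
  have hzT : ∀ x y, z (x, y, true) = w x y + w (x + 1) y := by
    intro x y
    simp only [hz, hw, src_mk, tgt_true]
    by_cases hA : WX p F (x, y) <;> by_cases hB : WX p F (x + 1, y)
    · rw [b2_not_of (by simp [hA, hB]), b2_of hA, b2_of hB]; rfl
    · rw [b2_of (by simp [hA, hB]), b2_of hA, b2_not_of hB]; rfl
    · rw [b2_of (by simp [hA, hB]), b2_not_of hA, b2_of hB]; rfl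
    · rw [b2_not_of (by simp [hA, hB]), b2_not_of hA, b2_not_of hB]; rfl
  have hzF : ∀ x y, z (x, y, false) = w x y + w x (y + 1) := by
    intro x y
    simp only [hz, hw, src_mk, tgt_false]
    by_cases hA : WX p F (x, y) <;> by_cases hB : WX p F (x, y + 1)
    · rw [b2_not_of (by simp [hA, hB]), b2_of hA, b2_of hB]; rfl
    · rw [b2_of (by simp [hA, hB]), b2_of hA, b2_not_of hB]; rfl
    · rw [b2_of (by simp [hA, hB]), b2_not_of hA, b2_of hB]; rfl
    · rw [b2_not_of (by simp [hA, hB]), b2_not_of hA, b2_not_of hB]; rfl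
  have hface : ∀ x y, z (x, y, true) + z (x, y + 1, true) + z (x, y, false) +
      z (x + 1, y, false) = 0 := by
    intro x y
    rw [hzT, hzT, hzF, hzF]
    have h1 := zmod2_add_self (w x y)
    have h2 := zmod2_add_self (w (x + 1) y)
    have h3 := zmod2_add_self (w x (y + 1))
    have h4 := zmod2_add_self (w (x + 1) (y + 1))
    linear_combination h1 + h2 + h3 + h4
  have hcV : ∀ x y, 0 ≤ y → c x y * z (x, y + 1, true) = c x (y + 1) * z (x, y + 1, true) := by
    intro x y hy
    by_cases h : z (x, y + 1, true) = 0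
    · rw [h, mul_zero, mul_zero]
    · have h1 := ha (x, y + 1, true) (by simp only; omega) h
      have h2 := hb _ h1
      rw [dsrc_true, dtgt_mk, add_sub_cancel_right] at h2
      rw [hc]
      simp only
      rw [b2_congr h2]
  have hcH : ∀ x y, 0 ≤ y → c x y * z (x + 1, y, false) = c (x + 1) y * z (x + 1, y, false) := by
    intro x y hy
    by_cases h : z (x + 1, y, false) = 0
    · rw [h, mul_zero, mul_zero]
    · have h1 := ha (x + 1, y, false) (by simp only; omega) h
      have h2 := hb _ h1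
      rw [dsrc_false, dtgt_mk, add_sub_cancel_right] at h2
      rw [hc]
      simp only
      rw [b2_congr h2]
  -- rows
  obtain ⟨H, hH⟩ : ∃ H : ℤ → ZMod 2,
      H = fun y => ∑ x ∈ Finset.Ico (-M) M, c x y * z (x, y, true) := ⟨_, rfl⟩
  have hrow : ∀ y, 0 ≤ y → H y + H (y + 1) = 0 := by
    intro y hy
    have h1 : ∑ x ∈ Finset.Ico (-M) M, ((c x y * z (x, y, false)) +
        (c (x + 1) y * z (x + 1, y, false))) = 0 := by
      rw [telescope' (by omega) (fun x => c x y * z (x, y, false))]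
      rw [hcz (-M) y hy (by omega), hcz M y hy (by omega)]
      ring
    rw [hH]
    simp only
    rw [← Finset.sum_add_distrib]
    have h2 : ∀ x ∈ Finset.Ico (-M) M, c x y * z (x, y, true) +
        c x (y + 1) * z (x, y + 1, true) = (c x y * z (x, y, false)) +
        (c (x + 1) y * z (x + 1, y, false)) := by
      intro x _
      have h3 := hface x y
      have h4 := hcV x y hy
      have h5 := hcH x y hy
      have h6 := zmod2_add_self (c x y * z (x, y, false))
      have h7 := zmod2_add_self (c (x + 1) y * z (x + 1, y, false))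
      rw [← h4, ← h5]
      rw [← h5] at h7
      linear_combination (c x y) * h3 - h6 - h7
    rw [Finset.sum_congr rfl h2]
    exact h1
  have hHM : H M = 0 := by
    rw [hH]
    apply Finset.sum_eq_zero
    intro x _
    rw [hcz x M (by omega) (by omega), zero_mul]
  have hH0 : H 0 = 0 := by
    have key : ∀ n : ℕ, (n : ℤ) ≤ M → H (M - n) = 0 := by
      intro n
      induction n with
      | zero => intro _; simpa using hHM
      | succ n ih =>
        intro hn
        push_cast at hn ⊢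
        have h1 := hrow (M - (n + 1)) (by omega)
        have e : M - ((n : ℤ) + 1) + 1 = M - n := by ring
        rw [e, ih (by omega), add_zero] at h1
        exact h1
    have h1 := key M.toNat (by omega)
    have e : M - (M.toNat : ℤ) = 0 := by omega
    rwa [e] at h1
  -- the bottom row
  have hbot : H 0 = ∑ x ∈ Finset.Ico p s, z (x, 0, true) := by
    rw [hH]
    have hsub : Finset.Ico p s ⊆ Finset.Ico (-M) M := by
      intro x hx
      rw [Finset.mem_Ico] at hx ⊢
      omega
    simp only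
    rw [← Finset.sum_subset hsub (f := fun x => c x 0 * z (x, 0, true))]
    · apply Finset.sum_congr rfl
      intro x hx
      rw [Finset.mem_Ico] at hx
      by_cases h : z (x, 0, true) = 0
      · rw [h, mul_zero]
      · have h1 := ha (x, 0, true) (by simp) h
        have h2 : C (x, 0) := by
          rw [hC]
          exact ⟨x, hx, DAdj.reach ⟨(x, 0, true), h1, Or.inl ⟨by simp, rfl⟩⟩⟩
        rw [hc]
        simp only
        rw [b2_of h2, one_mul]
    · intro x _ hx
      rw [Finset.mem_Ico] at hx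
      by_contra hne
      have hz0 : z (x, 0, true) ≠ 0 := fun h => hne (by rw [h, mul_zero])
      have hc0 : c x 0 ≠ 0 := fun h => hne (by rw [h, zero_mul])
      have h1 := ha (x, 0, true) (by simp) hz0
      have h2 : C (x, 0) := by
        by_contra h
        apply hc0
        rw [hc]
        exact b2_not_of h
      have h3 := hb _ h1
      rw [dsrc_true, dtgt_mk] at h3
      have h4 := h3.mpr h2
      rw [hC] at h4
      obtain ⟨i, hi, h4⟩ := h4
      rcases lt_or_ge x p with hxp | hxp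
      · exact h1.1 (Or.inr ⟨hxp, rfl, rfl⟩)
      · have : s ≤ x := by omega
        exact hcon' i x hi.1 hi.2 this (by simpa using h4)
  rw [hH0] at hbot
  have htel : ∑ x ∈ Finset.Ico p s, z (x, 0, true) = w p 0 + w s 0 := by
    rw [← telescope' hps.le (fun x => w x 0)]
    exact Finset.sum_congr rfl fun x _ => hzT x 0
  rw [htel] at hbot
  have h1 : w p 0 = 1 := by
    rw [hw]
    exact b2_of (Reach.refl _ _)
  have h2 : w s 0 = 0 := by
    rw [hw]
    exact b2_not_of hW
  rw [h1, h2, add_zero] at hbot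
  exact zero_ne_one hbot

end TH868.CT
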