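import Pool.Agent.TH868.CT.Cap
import Pool.Agent.H389R2.KP.StepLow

/-!
Boundary points which are still visited when all the edges of a half-box around the origin are
closed.
-/

set_option autoImplicit false
set_option maxHeartbeats 1000000

namespace TH868.CT

open H974 Finset H731C H389KP

/-- `x` is visited even if all edges of the half-box of radius `R` are closed. -/
def UF (R x : ℤ) (F : Finset Edg) : Prop := WX 0 (F \ VE (-R) R 0 R) (x, 0)

theorem UF_mono {R x : ℤ} {F G : Finset Edg} (h : F ⊆ G) (hF : UF R x F) : UF R x G :=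
  Reach.mono (Set.union_subset_union_left _
    (by exact_mod_cast Finset.sdiff_subset_sdiff h (Finset.Subset.refl _))) hF

theorem UF_WX {R x : ℤ} {F : Finset Edg} (hF : UF R x F) : WX 0 F (x, 0) :=
  Reach.mono (Set.union_subset_union_left _
    (by exact_mod_cast Finset.sdiff_subset)) hF

theorem HC_sdiff {R : ℤ} {F : Finset Edg} (h : HC 0 0 (R + 1) F) :
    HC 0 0 (R + 1) (F \ VE (-R) R 0 R) := by
  obtain ⟨⟨y, y', h1, h2, h3⟩, ⟨x, x', h4, h5, h6⟩, ⟨z, z', h7, h8, h9⟩⟩ := h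
  refine ⟨⟨y, y', h1, h2, h3.mono ?_⟩, ⟨x, x', h4, h5, h6.mono ?_⟩, ⟨z, z', h7, h8, h9.mono ?_⟩⟩
  · rintro ⟨a, b, _ | _⟩ ⟨k1, k2⟩
    · refine ⟨?_, k2⟩
      rw [Finset.mem_coe] at k1 k2 ⊢
      rw [Finset.mem_sdiff, mem_VE_false]
      rw [mem_LRE_false] at k2
      exact ⟨k1, by omega⟩
    · refine ⟨?_, k2⟩
      rw [Finset.mem_coe] at k1 k2 ⊢
      rw [Finset.mem_sdiff, mem_VE_true]
      rw [mem_LRE_true] at k2
      exact ⟨k1, by omega⟩
  · rintro ⟨a, b, _ | _⟩ ⟨k1, k2⟩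
    · refine ⟨?_, k2⟩
      rw [Finset.mem_coe] at k1 k2 ⊢
      rw [Finset.mem_sdiff, mem_VE_false]
      rw [mem_TBE_false] at k2
      exact ⟨k1, by omega⟩
    · refine ⟨?_, k2⟩
      rw [Finset.mem_coe] at k1 k2 ⊢
      rw [Finset.mem_sdiff, mem_VE_true]
      rw [mem_TBE_true] at k2
      exact ⟨k1, by omega⟩
  · rintro ⟨a, b, _ | _⟩ ⟨k1, k2⟩
    · refine ⟨?_, k2⟩
      rw [Finset.mem_coe] at k1 k2 ⊢
      rw [Finset.mem_sdiff, mem_VE_false]
      rw [mem_TBE_false] at k2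
      exact ⟨k1, by omega⟩
    · refine ⟨?_, k2⟩
      rw [Finset.mem_coe] at k1 k2 ⊢
      rw [Finset.mem_sdiff, mem_VE_true]
      rw [mem_TBE_true] at k2
      exact ⟨k1, by omega⟩

theorem far_of {N R x : ℤ} {F : Finset Edg} (hF : F ⊆ VE (-N) N 0 N) (hR : 0 ≤ R)
    (hx : 3 * (R + 1) ≤ x) (hc : HC 0 0 (R + 1) F) (h : WX 0 F (x, 0)) : UF R x F := by
  have hc' := HC_sdiff hc
  obtain ⟨fl, fr, hfl, -, hmeet⟩ := HC_meetV (by omega : 1 ≤ R + 1) hc'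
  set F' := F \ VE (-R) R 0 R with hF'
  have hF'V : F' ⊆ VE (-N) N 0 N := (Finset.sdiff_subset).trans hF
  show Reach (↑F' ∪ NX 0) (0, 0) (x, 0)
  have hB : ∀ e ∈ (NX 0 ∪ ↑(VE (-R) R 0 R) : Set Edg),
      (((src e).2 = 0 ∧ (src e).1 ≤ 0) ∨ inR (-R) R 0 R (src e)) ∧
        (((tgt e).2 = 0 ∧ (tgt e).1 ≤ 0) ∨ inR (-R) R 0 R (tgt e)) := by
    rintro ⟨a, b, bo⟩ (⟨h1, h2, h3⟩ | he)
    · simp only at h1 h2 h3
      subst h3
      rw [tgt_true]
      refine ⟨Or.inl ⟨h2, ?_⟩, Or.inl ⟨h2, ?_⟩⟩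
      · show a ≤ 0; omega
      · show a + 1 ≤ 0; omega
    · have := RE_ends (VE_subset_RE (Finset.mem_coe.mp he))
      exact ⟨Or.inr this.1, Or.inr this.2⟩
  have h' : Reach (↑F' ∪ (NX 0 ∪ ↑(VE (-R) R 0 R))) (x, 0) (0, 0) := by
    refine Reach.mono ?_ (Reach.symm h)
    rintro e (he | he)
    · by_cases hm : e ∈ VE (-R) R 0 R
      · exact Or.inr (Or.inr hm)
      · left
        rw [hF', Finset.mem_coe, Finset.mem_sdiff]
        exact ⟨he, hm⟩
    · exact Or.inr (Or.inl he)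
  have hNA : ∀ l : ℤ, l ≤ 0 → Reach (↑F' ∪ NX 0) (0, 0) (l, 0) := fun l hl =>
    (NA_line hl).mono Set.subset_union_right
  rcases hit_or (T := fun w => (w.2 = 0 ∧ w.1 ≤ 0) ∨ inR (-R) R 0 R w) hB h' with
    h1 | ⟨w, hw | hw, h1⟩
  · exact (h1.mono Set.subset_union_left).symm
  · have h2 := hNA w.1 hw.2
    have e : ((w.1, 0) : Vtx) = w := by rw [← hw.1]
    rw [e] at h2
    exact h2.trans (h1.mono Set.subset_union_left).symm
  · obtain ⟨w', h2, h3⟩ := exitW (G := (↑F' : Set Edg)) (z := 0) (R := 3 * (R + 1)) hF'V (by omega)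
      (fun e he _ => Finset.mem_coe.mp he) (u := w) (v := (x, 0))
      (by unfold inR at hw ⊢; omega) h1.symm (by right; left; show 0 + 3 * (R + 1) ≤ x; omega)
    have h4 := (hmeet w w' (by unfold inR at hw ⊢; omega) h2 h3).1
    have h5 : Reach (↑F' ∪ NX 0) w (fl, 0) :=
      h4.mono (Set.inter_subset_left.trans Set.subset_union_left)
    exact (hNA fl (by omega)).trans (h5.symm.trans (h1.mono Set.subset_union_left).symm)

theorem far_low : ∃ c : ℝ, 0 < c ∧ ∀ R x N : ℤ, 0 ≤ R → 3 * (R + 1) ≤ x → 40 * x ≤ N →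
    c * ps x ≤ P2 (VE (-N) N 0 N) (UF R x) := by
  obtain ⟨c, hc, h⟩ := one_low
  refine ⟨c * (1/2 : ℝ) ^ 141, by positivity, fun R x N hR hx hN => ?_⟩
  have h1 := h x N (by omega) hN
  have h2 := pr_HC (z := 0) (t := 0) (r := R + 1) (S := VE (-N) N 0 N) (by omega)
    (by
      rintro ⟨a, b, _ | _⟩ he
      · rw [mem_VE_false] at he ⊢; omega
      · rw [mem_VE_true] at he ⊢; omega)
  have iW : IncrE (VE (-N) N 0 N) (fun F => WX 0 F (x, 0)) := fun F G hFG _ hF =>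
    Reach.mono (Set.union_subset_union_left _ (by exact_mod_cast hFG)) hF
  have iH : IncrE (VE (-N) N 0 N) (HC 0 0 (R + 1)) := fun F G hFG _ hF =>
    ⟨hF.1.mono hFG, hF.2.1.mono hFG, hF.2.2.mono hFG⟩
  have h3 := Pr_harris okhalf2 iW iH
  have hp := ps_pos (n := x) (by omega)
  calc c * (1/2 : ℝ) ^ 141 * ps x = (c * ps x) * (1/2 : ℝ) ^ 141 := by ring
    _ ≤ P2 (VE (-N) N 0 N) (fun F => WX 0 F (x, 0)) * P2 (VE (-N) N 0 N) (HC 0 0 (R + 1)) :=
        mul_le_mul h1 h2 (by positivity) (Pr_nonneg okhalf2 _ _)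
    _ ≤ _ := h3
    _ ≤ _ := Pr_mono okhalf2 (fun F hF hFF => far_of hF hR hx hFF.2 hFF.1)

end TH868.CT
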