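import Pool.Agent.TH868.CT.Cap

/-!
Capacity bounds for the probability that the path visits a set of boundary points:
infinite volume.
-/

set_option autoImplicit false
set_option maxHeartbeats 1000000

namespace TH868.CT

open H974 Finset H731C H389KP MeasureTheory Filter Topology

/-- the limit of the probabilities in finite boxes -/
theorem lim_fin (T : Finset ℤ) :
    Tendsto (fun N : ℕ => P2 (VE (-(N : ℤ)) N 0 N) (Hit T)) atTop
      (𝓝 (perc.real {ω | ∃ x ∈ T, ((x, 0) : ℤ × ℕ) ∈ Cm ω})) := by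
  have h := EV_tendsto 1 (fun _ v => v.1 ∈ T ∧ v.2 = 0)
  have e1 : {ω : Conf | ∀ i < 1, ∃ v : ℤ × ℕ, (v.1 ∈ T ∧ v.2 = 0) ∧ v ∈ Cm ω} =
      {ω | ∃ x ∈ T, ((x, 0) : ℤ × ℕ) ∈ Cm ω} := by
    ext ω
    constructor
    · intro h
      obtain ⟨⟨a, b⟩, ⟨h1, h2⟩, h3⟩ := h 0 (by norm_num)
      simp only at h1 h2
      subst h2
      exact ⟨a, h1, h3⟩
    · rintro ⟨x, hx, hC⟩ i _
      exact ⟨(x, 0), ⟨hx, rfl⟩, hC⟩
  rw [e1] at h
  refine h.congr ?_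
  intro N
  apply Pr_congr
  intro F hF
  constructor
  · intro h
    obtain ⟨⟨a, b⟩, ⟨h1, h2, h3⟩, h4⟩ := h 0 (by norm_num)
    simp only at h1 h2 h3
    have hb : b = 0 := by omega
    subst hb
    exact ⟨a, h2, h4⟩
  · rintro ⟨x, hx, hC⟩ i _
    exact ⟨(x, 0), ⟨le_rfl, hx, rfl⟩, hC⟩

/-- the finite-volume probability is below the infinite-volume one -/
theorem fin_le (T : Finset ℤ) (N : ℕ) :
    P2 (VE (-(N : ℤ)) N 0 N) (Hit T) ≤ perc.real {ω | ∃ x ∈ T, ((x, 0) : ℤ × ℕ) ∈ Cm ω} := by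
  rw [← ON_event N (Hit T)]
  apply measureReal_mono
  · rintro ω ⟨x, hx, hW⟩
    exact ⟨x, hx, (reach_Cm hW).2⟩
  · exact measure_ne_top _ _

/-- the capacity of a set of boundary points -/
noncomputable def cap (S : Set ℤ) : ℝ :=
  sSup {r | ∃ (T : Finset ℤ) (v : ℤ → ℝ), (∀ x ∈ T, x ∈ S ∧ 0 ≤ v x) ∧ ∑ x ∈ T, v x = 1 ∧
    r = 1 / ∑ x ∈ T, ∑ y ∈ T, v x * v y * kern x y}

theorem cap_bdd {S : Set ℤ} (hS : ∀ x ∈ S, 1 ≤ x) :
    BddAbove {r | ∃ (T : Finset ℤ) (v : ℤ → ℝ), (∀ x ∈ T, x ∈ S ∧ 0 ≤ v x) ∧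
      ∑ x ∈ T, v x = 1 ∧ r = 1 / ∑ x ∈ T, ∑ y ∈ T, v x * v y * kern x y} := by
  refine ⟨1, ?_⟩
  rintro r ⟨T, v, h1, h2, rfl⟩
  have h := en_ge (S := T) (fun x hx => hS x (h1 x hx).1) (v := v) (fun x hx => (h1 x hx).2)
  rw [h2] at h
  unfold en at h
  rw [div_le_one (by linarith)]
  linarith

theorem le_cap {S : Set ℤ} (hS : ∀ x ∈ S, 1 ≤ x) {T : Finset ℤ} {v : ℤ → ℝ}
    (h1 : ∀ x ∈ T, x ∈ S ∧ 0 ≤ v x) (h2 : ∑ x ∈ T, v x = 1) : 1 / en T v ≤ cap S :=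
  le_csSup (cap_bdd hS) ⟨T, v, h1, h2, rfl⟩

theorem cap_nonneg {S : Set ℤ} (hS : ∀ x ∈ S, 1 ≤ x) : 0 ≤ cap S := by
  apply Real.sSup_nonneg
  rintro r ⟨T, v, h1, h2, rfl⟩
  have h := en_ge (S := T) (fun x hx => hS x (h1 x hx).1) (v := v) (fun x hx => (h1 x hx).2)
  rw [h2] at h
  unfold en at h
  apply div_nonneg zero_le_one
  linarith

theorem cap_le_one {S : Set ℤ} (hS : ∀ x ∈ S, 1 ≤ x) : cap S ≤ 1 := by
  apply Real.sSup_le _ zero_le_one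
  rintro r ⟨T, v, h1, h2, rfl⟩
  have h := en_ge (S := T) (fun x hx => hS x (h1 x hx).1) (v := v) (fun x hx => (h1 x hx).2)
  rw [h2] at h
  unfold en at h
  rw [div_le_one (by linarith)]
  linarith

/-- a big box for a finite set -/
theorem exists_box (T : Finset ℤ) : ∃ M : ℕ, ∀ x ∈ T, 40 * x ≤ M := by
  obtain ⟨M, hM⟩ := T.bddAbove
  refine ⟨(40 * M).toNat, fun x hx => ?_⟩
  have : x ≤ M := hM (Finset.mem_coe.mpr hx)
  omega

theorem cap_main : ∃ c C : ℝ, 0 < c ∧ 0 < C ∧ ∀ S : Set ℤ, (∀ x ∈ S, 1 ≤ x) →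
    c * cap S ≤ perc.real {ω | ∃ x ∈ S, ((x, 0) : ℤ × ℕ) ∈ Cm ω} ∧
    perc.real {ω | ∃ x ∈ S, ((x, 0) : ℤ × ℕ) ∈ Cm ω} ≤ C * cap S := by
  obtain ⟨c, hc, hl⟩ := cap_low
  obtain ⟨C, hC, hu⟩ := cap_up
  refine ⟨c, 4 * C, hc, by positivity, fun S hS => ⟨?_, ?_⟩⟩
  · rw [mul_comm, ← le_div_iff₀ hc]
    apply Real.sSup_le
    · rintro r ⟨T, v, h1, h2, rfl⟩
      have hT1 : ∀ x ∈ T, 1 ≤ x := fun x hx => hS x (h1 x hx).1
      obtain ⟨M, hM⟩ := exists_box T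
      have h3 := hl T M (fun x hx => ⟨hT1 x hx, hM x hx⟩) v (fun x hx => (h1 x hx).2) h2
      rw [le_div_iff₀ hc]
      have h4 : 1 / (∑ x ∈ T, ∑ y ∈ T, v x * v y * kern x y) * c = c / en T v := by
        unfold en; ring
      rw [h4]
      refine h3.trans ((fin_le T M).trans ?_)
      apply measureReal_mono
      · rintro ω ⟨x, hx, hW⟩
        exact ⟨x, (h1 x hx).1, hW⟩
      · exact measure_ne_top _ _
    · exact div_nonneg measureReal_nonneg hc.le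
  · set p := perc.real {ω | ∃ x ∈ S, ((x, 0) : ℤ × ℕ) ∈ Cm ω} with hp
    rcases (measureReal_nonneg : 0 ≤ p).eq_or_lt with h0 | h0
    · rw [hp, ← h0]
      exact mul_nonneg (by positivity) (cap_nonneg hS)
    · classical
      -- finitely many points
      have hmono : Monotone (fun n : ℕ =>
          {ω : Conf | ∃ x ∈ S, x ≤ (n : ℤ) ∧ ((x, 0) : ℤ × ℕ) ∈ Cm ω}) := by
        rintro n m hnm ω ⟨x, hx, hxn, hC⟩
        exact ⟨x, hx, by omega, hC⟩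
      have ht := tendsto_measure_iUnion_atTop (μ := perc) hmono
      have hU : (⋃ n : ℕ, {ω : Conf | ∃ x ∈ S, x ≤ (n : ℤ) ∧ ((x, 0) : ℤ × ℕ) ∈ Cm ω}) =
          {ω | ∃ x ∈ S, ((x, 0) : ℤ × ℕ) ∈ Cm ω} := by
        ext ω
        simp only [Set.mem_iUnion, Set.mem_ofPred_eq]
        constructor
        · rintro ⟨n, x, hx, _, hC⟩
          exact ⟨x, hx, hC⟩
        · rintro ⟨x, hx, hC⟩
          exact ⟨x.toNat, x, hx, by omega, hC⟩
      rw [hU] at ht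
      have ht2 := (ENNReal.tendsto_toReal (measure_ne_top perc _)).comp ht
      have ht3 := (ht2.eventually (lt_mem_nhds (show p / 2 < _ by
        show p / 2 < p
        linarith))).exists
      obtain ⟨n, hn⟩ := ht3
      set T : Finset ℤ := (Finset.Icc (1 : ℤ) n).filter (· ∈ S) with hT
      have hTS : ∀ x ∈ T, x ∈ S := fun x hx => (Finset.mem_filter.mp hx).2
      have hTeq : {ω : Conf | ∃ x ∈ S, x ≤ (n : ℤ) ∧ ((x, 0) : ℤ × ℕ) ∈ Cm ω} =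
          {ω | ∃ x ∈ T, ((x, 0) : ℤ × ℕ) ∈ Cm ω} := by
        ext ω
        constructor
        · rintro ⟨x, hx, hxn, hC⟩
          exact ⟨x, Finset.mem_filter.mpr ⟨Finset.mem_Icc.mpr ⟨hS x hx, hxn⟩, hx⟩, hC⟩
        · rintro ⟨x, hx, hC⟩
          have h1 := Finset.mem_filter.mp hx
          exact ⟨x, h1.2, (Finset.mem_Icc.mp h1.1).2, hC⟩
      have hn' : p / 2 < perc.real {ω | ∃ x ∈ T, ((x, 0) : ℤ × ℕ) ∈ Cm ω} := by
        rw [← hTeq]
        exact hn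
      obtain ⟨M, hM⟩ := exists_box T
      have hev := ((lim_fin T).eventually (lt_mem_nhds (show p / 4 < _ by linarith))).and
        (eventually_ge_atTop M)
      obtain ⟨N, hN, hNM⟩ := hev.exists
      obtain ⟨v, hv0, hv1, hv2⟩ := hu T N
        (fun x hx => ⟨hS x (hTS x hx), by have := hM x hx; omega⟩) (by linarith)
      have h5 := le_cap hS (T := T) (v := v) (fun x hx => ⟨hTS x hx, hv0 x hx⟩) hv1
      have h6 : C / en T v ≤ C * cap S := by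
        calc C / en T v = C * (1 / en T v) := by ring
          _ ≤ C * cap S := mul_le_mul_of_nonneg_left h5 hC.le
      nlinarith

end TH868.CT
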