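import Pool.Agent.TH868.CT.Sep
import Pool.Agent.H389R2.KP.Main

/-!
One-point and two-point bounds for boundary points in finite boxes.
-/

set_option autoImplicit false
set_option maxHeartbeats 1000000

namespace TH868.CT

open H974 Finset H731C H389KP

theorem W_iff {F : Finset Edg} {v : Vtx} : W F v ↔ WX 0 F v := Iff.rfl

/-- `(n + 1) ^ (-1/3)` -/
noncomputable def ps (n : ℤ) : ℝ := (1 / ((n : ℝ) + 1)) ^ ((1 : ℝ) / 3)

theorem ps_pos {n : ℤ} (hn : 0 ≤ n) : 0 < ps n := by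
  unfold ps
  have : (0 : ℝ) ≤ n := by exact_mod_cast hn
  positivity

theorem ps_zero : ps 0 = 1 := by
  unfold ps; norm_num

theorem ps_le_one {n : ℤ} (hn : 0 ≤ n) : ps n ≤ 1 := by
  unfold ps
  have : (0 : ℝ) ≤ n := by exact_mod_cast hn
  apply Real.rpow_le_one (by positivity) _ (by norm_num)
  rw [div_le_one (by positivity)]
  linarith

theorem rt_ps (p y : ℤ) : rt p y y = ps (y - p) := by
  unfold rt ps
  push_cast
  congr 2
  ring

/-- two consecutive points -/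
def seq2 (x y : ℤ) : ℕ → ℤ
  | 0 => 0
  | 1 => x
  | _ => y

theorem one_up : ∃ C : ℝ, 0 < C ∧ ∀ x N : ℤ, 1 ≤ x → 4 * x ≤ N →
    P2 (VE (-N) N 0 N) (fun F => WX 0 F (x, 0)) ≤ C * ps x := by
  obtain ⟨C, hC, h⟩ := fin_upper
  refine ⟨C, hC, fun x N hx hN => ?_⟩
  have hO : Ord 1 (seq2 x x) (seq2 x x) := by
    refine ⟨rfl, fun i hi => ?_⟩
    have : i = 0 := by omega
    subst this
    exact ⟨by show (0 : ℤ) < x; omega, le_rfl⟩
  have h1 := h 1 _ _ hO N hN
  rw [prod_range_one] at h1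
  have e : rt (seq2 x x 0) (seq2 x x (0 + 1)) (seq2 x x (0 + 1)) = ps x := by
    have := rt_ps 0 x
    rw [sub_zero] at this
    exact this
  rw [e] at h1
  refine le_trans (Pr_mono okhalf2 fun F _ hF => ?_) h1
  intro i hi
  have : i = 0 := by omega
  subst this
  refine ⟨(x, 0), ?_, hF⟩
  show SQ x x (x, 0)
  unfold SQ inR
  simp

theorem one_low : ∃ c : ℝ, 0 < c ∧ ∀ x N : ℤ, 1 ≤ x → 40 * x ≤ N →
    c * ps x ≤ P2 (VE (-N) N 0 N) (fun F => WX 0 F (x, 0)) := by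
  obtain ⟨c, hc, h⟩ := fin_lower
  refine ⟨c, hc, fun x N hx hN => ?_⟩
  have hO : Ord 1 (seq2 x x) (seq2 x x) := by
    refine ⟨rfl, fun i hi => ?_⟩
    have : i = 0 := by omega
    subst this
    exact ⟨by show (0 : ℤ) < x; omega, le_rfl⟩
  have h1 := h 1 _ _ hO (fun i hi => by omega) N hN
  rw [prod_range_one] at h1
  have e : rt (seq2 x x 0) (seq2 x x (0 + 1)) (seq2 x x (0 + 1)) = ps x := by
    have := rt_ps 0 x
    rw [sub_zero] at this
    exact this
  rw [e] at h1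
  refine le_trans h1 (Pr_mono okhalf2 fun F _ hF => ?_)
  obtain ⟨⟨a, b⟩, ⟨⟨h2, h3⟩, h4⟩, h5⟩ := hF 0 (by omega)
  have h2' : x ≤ a := h2
  have h3' : a ≤ x := h3
  have h4' : b = 0 := h4
  have e1 : a = x := le_antisymm h3' h2'
  rw [e1, h4'] at h5
  exact h5

theorem two_up : ∃ C : ℝ, 0 < C ∧ ∀ x y N : ℤ, 1 ≤ x → x < y → 4 * y ≤ N →
    P2 (VE (-N) N 0 N) (fun F => WX 0 F (x, 0) ∧ WX 0 F (y, 0)) ≤ C * (ps x * ps (y - x)) := by
  obtain ⟨C, hC, h⟩ := fin_upper
  refine ⟨C * C, by positivity, fun x y N hx hxy hN => ?_⟩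
  have hO : Ord 2 (seq2 x y) (seq2 x y) := by
    refine ⟨rfl, fun i hi => ?_⟩
    interval_cases i
    · exact ⟨by show (0 : ℤ) < x; omega, le_rfl⟩
    · exact ⟨by show x < y; omega, le_rfl⟩
  have h1 := h 2 _ _ hO N hN
  rw [prod_range_succ, prod_range_one] at h1
  have e : rt (seq2 x y 0) (seq2 x y (0 + 1)) (seq2 x y (0 + 1)) = ps x := by
    have := rt_ps 0 x
    rw [sub_zero] at this
    exact this
  have e2 : rt (seq2 x y 1) (seq2 x y (1 + 1)) (seq2 x y (1 + 1)) = ps (y - x) := rt_ps x y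
  rw [e, e2] at h1
  refine le_trans (Pr_mono okhalf2 fun F _ hF => ?_) (h1.trans (le_of_eq (by ring)))
  intro i hi
  interval_cases i
  · refine ⟨(x, 0), ?_, hF.1⟩
    show SQ x x (x, 0)
    unfold SQ inR
    simp
  · refine ⟨(y, 0), ?_, hF.2⟩
    show SQ y y (y, 0)
    unfold SQ inR
    simp

/-- the point `y` and the half-line `(-∞, x]` -/
theorem shift_low : ∃ c : ℝ, 0 < c ∧ ∀ x y N : ℤ, 0 ≤ x → x < y → 40 * (y - x) ≤ N - x →
    c * ps (y - x) ≤ P2 (VE (-N) N 0 N) (fun F => WX x F (y, 0)) := by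
  obtain ⟨c, hc, h⟩ := one_low
  refine ⟨c, hc, fun x y N hx hxy hN => ?_⟩
  have h1 := h (y - x) (N - x) (by omega) hN
  have hmp : (trl x 0).mp (VE (-(N - x)) (N - x) 0 (N - x)) ⊆ VE (-N) N 0 N := by
    intro e he
    rw [LSym.mem_mp] at he
    obtain ⟨a, b, _ | _⟩ := e
    · rw [trl_φs, mem_VE_false] at he
      rw [mem_VE_false]
      omega
    · rw [trl_φs, mem_VE_true] at he
      rw [mem_VE_true]
      omega
  refine h1.trans ?_
  refine le_trans (le_of_eq ?_) (Pr_mono_set okhalf2 hmp ?_)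
  · unfold P2
    rw [LSym.pr]
    apply Pr_congr
    intro F _
    unfold WX
    have e1 : (↑((trl x 0).mp F) ∪ NX x : Set Edg) = (trl x 0).φ '' (↑F ∪ NX 0) := by
      rw [Set.image_union, ← LSym.coe_mp]
      congr 1
      ext ⟨a, b, bo⟩
      constructor
      · rintro ⟨h1, h2, h3⟩
        simp only at h1 h2 h3
        refine ⟨(a - x, b, bo), ⟨by simp only; omega, h2, h3⟩, ?_⟩
        show ((a - x + x, b + 0, bo) : Edg) = (a, b, bo)
        simp
      · rintro ⟨⟨a', b', bo'⟩, ⟨h1, h2, h3⟩, h4⟩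
        simp only at h1 h2 h3
        have h5 : ((a' + x, b' + 0, bo') : Edg) = (a, b, bo) := h4
        simp only [Prod.mk.injEq] at h5
        refine ⟨?_, ?_, ?_⟩
        · show a < x; omega
        · show b = 0; omega
        · show bo = true; rw [← h5.2.2]; exact h3
    have e2 : (trl x 0).ψ (0, 0) = ((x, 0) : Vtx) := by
      show ((0 + x, 0 + 0) : Vtx) = (x, 0); simp
    have e3 : (trl x 0).ψ (y - x, 0) = ((y, 0) : Vtx) := by
      show ((y - x + x, 0 + 0) : Vtx) = (y, 0); simp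
    rw [e1, ← e2, ← e3, LSym.reach_iff]
  · intro F G h _ hF
    exact Reach.mono (Set.union_subset_union_left _ (by exact_mod_cast h)) hF

end TH868.CT
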