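import Pool.Agent.TH868.CT.Swap
import Pool.Agent.TH868.CT.Dual

/-!
The first visited point of a set of boundary points, and the points visited after it: a domination
inequality.
-/

set_option autoImplicit false
set_option maxHeartbeats 1000000

namespace TH868.CT

open H974 Finset H731C

/-- Faces joined to the bottom faces of `[0, x)` by closed dual edges. -/
def DC (x : ℤ) (F : Finset Edg) (f : Vtx) : Prop :=
  ∃ i, (0 ≤ i ∧ i < x) ∧ DReach (CG 0 F) (i, -1) f

open Classical in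
/-- The edges of `S` next to these faces. -/
noncomputable def TX (S : Finset Edg) (x : ℤ) (F : Finset Edg) : Finset Edg :=
  S.filter (fun e => DC x F (dsrc e) ∨ DC x F (dtgt e))

theorem mem_TX {S : Finset Edg} {x : ℤ} {F : Finset Edg} {e : Edg} :
    e ∈ TX S x F ↔ e ∈ S ∧ (DC x F (dsrc e) ∨ DC x F (dtgt e)) := by
  classical
  unfold TX
  simp only [Finset.mem_filter]

theorem DC_step {x : ℤ} {F : Finset Edg} {e : Edg} (he : e ∈ CG 0 F) :
    DC x F (dsrc e) ↔ DC x F (dtgt e) := by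
  constructor
  · rintro ⟨i, hi, h⟩
    exact ⟨i, hi, h.trans (DAdj.reach ⟨e, he, Or.inl ⟨rfl, rfl⟩⟩)⟩
  · rintro ⟨i, hi, h⟩
    exact ⟨i, hi, h.trans (DAdj.reach ⟨e, he, Or.inr ⟨rfl, rfl⟩⟩)⟩

/-- agreement on the explored edges -/
theorem agree {S : Finset Edg} {x : ℤ} {F G : Finset Edg} (hF : F ⊆ S) (hG : G ⊆ S)
    (h : F ∩ TX S x F = G ∩ TX S x F) {e : Edg} (he : DC x F (dsrc e) ∨ DC x F (dtgt e)) :
    e ∈ CG 0 F ↔ e ∈ CG 0 G := by
  have h1 : e ∈ F ↔ e ∈ G := by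
    by_cases hS : e ∈ S
    · have hT : e ∈ TX S x F := mem_TX.mpr ⟨hS, he⟩
      have := Finset.ext_iff.mp h e
      simp only [Finset.mem_inter, hT, and_true] at this
      exact this
    · exact ⟨fun h => absurd (hF h) hS, fun h => absurd (hG h) hS⟩
  unfold CG
  simp only [Set.mem_inter_iff, Set.mem_compl_iff, Set.mem_union, Finset.mem_coe, h1]

theorem fwd {S : Finset Edg} {x : ℤ} {F G : Finset Edg} (hF : F ⊆ S) (hG : G ⊆ S)
    (h : F ∩ TX S x F = G ∩ TX S x F) {i : ℤ} (hi : 0 ≤ i ∧ i < x) {f : Vtx}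
    (hr : DReach (CG 0 F) (i, -1) f) : DReach (CG 0 G) (i, -1) f := by
  have key : DC x F f ∧ DReach (CG 0 G) (i, -1) f := by
    induction hr with
    | refl => exact ⟨⟨i, hi, DReach.refl _ _⟩, DReach.refl _ _⟩
    | @tail g g' _ hs ih =>
      obtain ⟨e, he, hc⟩ := hs
      have hDe : DC x F (dsrc e) ∨ DC x F (dtgt e) := by
        rcases hc with ⟨h1, h2⟩ | ⟨h1, h2⟩
        · left; rw [h1]; exact ih.1
        · right; rw [h2]; exact ih.1
      have hst := DC_step (x := x) he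
      constructor
      · rcases hc with ⟨h1, h2⟩ | ⟨h1, h2⟩
        · rw [← h2]; exact hst.mp (h1 ▸ ih.1)
        · rw [← h1]; exact hst.mpr (h2 ▸ ih.1)
      · exact ih.2.trans (DAdj.reach ⟨e, (agree hF hG h hDe).mp he, hc⟩)
  exact key.2

theorem bwd {S : Finset Edg} {x : ℤ} {F G : Finset Edg} (hF : F ⊆ S) (hG : G ⊆ S)
    (h : F ∩ TX S x F = G ∩ TX S x F) {i : ℤ} (hi : 0 ≤ i ∧ i < x) {f : Vtx}
    (hr : DReach (CG 0 G) (i, -1) f) : DReach (CG 0 F) (i, -1) f := by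
  have key : DC x F f ∧ DReach (CG 0 F) (i, -1) f := by
    induction hr with
    | refl => exact ⟨⟨i, hi, DReach.refl _ _⟩, DReach.refl _ _⟩
    | @tail g g' _ hs ih =>
      obtain ⟨e, he, hc⟩ := hs
      have hDe : DC x F (dsrc e) ∨ DC x F (dtgt e) := by
        rcases hc with ⟨h1, h2⟩ | ⟨h1, h2⟩
        · left; rw [h1]; exact ih.1
        · right; rw [h2]; exact ih.1
      have heF := (agree hF hG h hDe).mpr he
      have hst := DC_step (x := x) heF
      constructor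
      · rcases hc with ⟨h1, h2⟩ | ⟨h1, h2⟩
        · rw [← h2]; exact hst.mp (h1 ▸ ih.1)
        · rw [← h1]; exact hst.mpr (h2 ▸ ih.1)
      · exact ih.2.trans (DAdj.reach ⟨e, heF, hc⟩)
  exact key.2

theorem DC_iff {S : Finset Edg} {x : ℤ} {F G : Finset Edg} (hF : F ⊆ S) (hG : G ⊆ S)
    (h : F ∩ TX S x F = G ∩ TX S x F) (f : Vtx) : DC x F f ↔ DC x G f :=
  ⟨fun ⟨i, hi, hr⟩ => ⟨i, hi, fwd hF hG h hi hr⟩, fun ⟨i, hi, hr⟩ => ⟨i, hi, bwd hF hG h hi hr⟩⟩

theorem TX_stop {S : Finset Edg} {x : ℤ} {F G : Finset Edg} (hF : F ⊆ S) (hG : G ⊆ S)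
    (h : F ∩ TX S x F = G ∩ TX S x F) : TX S x G = TX S x F := by
  ext e
  rw [mem_TX, mem_TX, DC_iff hF hG h, DC_iff hF hG h]

/-- `x` is visited and no point of `P` to the left of `x` is. -/
def AX (P : ℤ → Prop) (x : ℤ) (F : Finset Edg) : Prop :=
  WX 0 F (x, 0) ∧ ∀ s, P s → 0 < s → s < x → ¬ WX 0 F (s, 0)

theorem VE_pos {N : ℤ} {F : Finset Edg} (hF : F ⊆ VE (-N) N 0 N) : ∀ e ∈ F, 0 ≤ e.2.1 := by
  intro e he
  have := hF he
  obtain ⟨x, y, b⟩ := e
  cases b
  · rw [mem_VE_false] at this; simp only; omega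
  · rw [mem_VE_true] at this; simp only; omega

theorem no_far {N x : ℤ} {F : Finset Edg} (hF : F ⊆ VE (-N) N 0 N) (hW : WX 0 F (x, 0)) {j : ℤ}
    (hj : x ≤ j) : ¬ DC x F (j, -1) := by
  rintro ⟨i, hi, hr⟩
  exact du_easy (VE_pos hF) hi.1 hi.2 hj hr hW

theorem AX_stop {N x : ℤ} (hx : 0 < x) {P : ℤ → Prop} {F G : Finset Edg}
    (hF : F ⊆ VE (-N) N 0 N) (hG : G ⊆ VE (-N) N 0 N)
    (h : F ∩ TX (VE (-N) N 0 N) x F = G ∩ TX (VE (-N) N 0 N) x F) (hA : AX P x F) : AX P x G := by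
  constructor
  · by_contra hW
    obtain ⟨i, j, hi, hj, hr⟩ := du_hard hG hx hW
    exact no_far hF hA.1 hj ⟨i, hi, bwd hF hG h hi hr⟩
  · intro s hs hs0 hsx
    obtain ⟨i, j, hi, hj, hr⟩ := du_hard hF hs0 (hA.2 s hs hs0 hsx)
    have hix : 0 ≤ i ∧ i < x := by omega
    exact du_easy (VE_pos hG) hi.1 hi.2 hj (fwd hF hG h hix hr)

theorem after {N x y : ℤ} (hx : 0 < x) (hxy : x < y) {P : ℤ → Prop} {F G : Finset Edg}
    (hF : F ⊆ VE (-N) N 0 N) (hG : G ⊆ VE (-N) N 0 N)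
    (h : F \ TX (VE (-N) N 0 N) x F = G \ TX (VE (-N) N 0 N) x F) (hA : AX P x F)
    (hy : ¬ WX 0 F (y, 0)) : ¬ WX x G (y, 0) := by
  obtain ⟨i, j, hi, hj, hr⟩ := du_hard hF (by omega) hy
  have hnj : ¬ DC x F (j, -1) := no_far hF hA.1 (by omega)
  have hix : x ≤ i := by
    by_contra hlt
    exact hnj ⟨i, ⟨hi.1, by omega⟩, hr⟩
  have hni : ¬ DC x F (i, -1) := by
    rintro ⟨i', hi', hr'⟩
    exact hnj ⟨i', hi', hr'.trans hr⟩
  have key : ∀ f, DReach (CG 0 F) (i, -1) f → ¬ DC x F f ∧ DReach (CG x G) (i, -1) f := by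
    intro f hf
    induction hf with
    | refl => exact ⟨hni, DReach.refl _ _⟩
    | @tail g g' _ hs ih =>
      obtain ⟨e, he, hc⟩ := hs
      have hst := DC_step (x := x) he
      have h1 : ¬ DC x F (dsrc e) ∧ ¬ DC x F (dtgt e) := by
        rcases hc with ⟨h1, h2⟩ | ⟨h1, h2⟩
        · have := ih.1
          rw [← h1] at this
          exact ⟨this, fun h => this (hst.mpr h)⟩
        · have := ih.1
          rw [← h2] at this
          exact ⟨fun h => this (hst.mp h), this⟩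
      have hT : e ∉ TX (VE (-N) N 0 N) x F := by
        intro h
        rcases (mem_TX.mp h).2 with h | h
        · exact h1.1 h
        · exact h1.2 h
      have heG : e ∉ G := by
        intro heG
        have h3 := Finset.ext_iff.mp h e
        simp only [Finset.mem_sdiff, hT, not_false_eq_true, and_true] at h3
        exact he.1 (Or.inl (Finset.mem_coe.mpr (h3.mpr heG)))
      have heN : e ∉ NX x := by
        intro hN
        obtain ⟨a, b, bo⟩ := e
        obtain ⟨hN1, hN2, hN3⟩ := hN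
        simp only at hN1 hN2 hN3
        subst hN2
        subst hN3
        rcases lt_or_ge a 0 with h0 | h0
        · exact he.1 (Or.inr ⟨h0, rfl, rfl⟩)
        · apply h1.1
          refine ⟨a, ⟨h0, hN1⟩, ?_⟩
          rw [dsrc_true]
          simpa using DReach.refl (CG 0 F) ((a, -1) : Vtx)
      constructor
      · rcases hc with ⟨h2, h3⟩ | ⟨h2, h3⟩
        · rw [← h3]; exact h1.2
        · rw [← h2]; exact h1.1
      · refine ih.2.trans (DAdj.reach ⟨e, ⟨?_, he.2⟩, hc⟩)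
        rintro (h3 | h3)
        · exact heG (Finset.mem_coe.mp h3)
        · exact heN h3
  exact du_easy (VE_pos hG) hix hi.2 hj (key _ hr).2

/-- **Domination**: given that `x` is the first visited point of `P`, the point `y > x` is visited
with probability at least the probability that `y` is joined to `(-∞, x]`. -/
theorem domination {N x y : ℤ} (hx : 0 < x) (hxy : x < y) (P : ℤ → Prop) :
    P2 (VE (-N) N 0 N) (AX P x) * P2 (VE (-N) N 0 N) (fun F => WX x F (y, 0)) ≤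
      P2 (VE (-N) N 0 N) (fun F => AX P x F ∧ WX 0 F (y, 0)) := by
  have h := swap (S := VE (-N) N 0 N) (TX (VE (-N) N 0 N) x) (A := AX P x)
    (B := fun F => ¬ WX x F (y, 0)) (B' := fun F => ¬ WX 0 F (y, 0))
    (fun F G hF hG h => TX_stop hF hG h) (fun F G hF hG h hA => AX_stop hx hF hG h hA)
    (fun F G hF hG h hA hB => after hx hxy hF hG h hA hB)
  have h1 : P2 (VE (-N) N 0 N) (AX P x) = P2 (VE (-N) N 0 N) (fun F => AX P x F ∧ WX 0 F (y, 0)) +
      P2 (VE (-N) N 0 N) (fun F => AX P x F ∧ ¬ WX 0 F (y, 0)) := by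
    unfold P2 Pr
    rw [← Ex_add]
    apply Ex_congr
    intro F _
    rw [ind_and, ind_and, ind_not]
    ring
  have h2 : P2 (VE (-N) N 0 N) (fun F => ¬ WX x F (y, 0)) =
      1 - P2 (VE (-N) N 0 N) (fun F => WX x F (y, 0)) := Pr_not _ _
  have h' : P2 (VE (-N) N 0 N) (fun F => AX P x F ∧ ¬ WX 0 F (y, 0)) ≤
      P2 (VE (-N) N 0 N) (AX P x) * P2 (VE (-N) N 0 N) (fun F => ¬ WX x F (y, 0)) := h
  rw [h2] at h'
  linarith

end TH868.CT
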