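import Pool.Agent.H974R2.Basic

/-!
Resampling outside an explored set: if `T` is a stopping set, `A` is determined inside `T` and `B'`
forces `B` by the configuration outside `T`, then `P (A ∩ B') ≤ P A * P B`.
-/

set_option autoImplicit false

namespace TH868.CT

open H974 Finset

variable {E : Type*} [DecidableEq E]

/-- the number of configurations in an event -/
noncomputable def Nb (S : Finset E) (A : Finset E → Prop) : ℕ := by
  classical exact (S.powerset.filter A).card

theorem Pr_half (S : Finset E) (A : Finset E → Prop) :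
    Pr (fun _ : E => (1/2 : ℝ)) S A = (1/2 : ℝ) ^ S.card * Nb S A := by
  classical
  unfold Pr Ex Nb
  rw [Finset.card_filter]
  push_cast
  rw [Finset.mul_sum]
  apply Finset.sum_congr rfl
  intro F hF
  have hFS := Finset.mem_powerset.mp hF
  rw [Finset.prod_const, Finset.prod_const]
  have e1 : (1 - 1/2 : ℝ) = 1/2 := by norm_num
  rw [e1, ← pow_add, ← Finset.card_union_of_disjoint Finset.disjoint_sdiff,
    Finset.union_sdiff_of_subset hFS]
  by_cases h : A F
  · rw [ind_of h]; simp [h]
  · rw [ind_not_of h]; simp [h]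

theorem swap {S : Finset E} (T : Finset E → Finset E) {A B B' : Finset E → Prop}
    (hT : ∀ F G, F ⊆ S → G ⊆ S → F ∩ T F = G ∩ T F → T G = T F)
    (hA : ∀ F G, F ⊆ S → G ⊆ S → F ∩ T F = G ∩ T F → A F → A G)
    (hB : ∀ F G, F ⊆ S → G ⊆ S → F \ T F = G \ T F → A F → B' F → B G) :
    Pr (fun _ : E => (1/2 : ℝ)) S (fun F => A F ∧ B' F) ≤
      Pr (fun _ : E => (1/2 : ℝ)) S A * Pr (fun _ : E => (1/2 : ℝ)) S B := by
  classical
  rw [Pr_half, Pr_half, Pr_half]
  have key : Nb S (fun F => A F ∧ B' F) * 2 ^ S.card ≤ Nb S A * Nb S B := by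
    unfold Nb
    rw [← Finset.card_powerset S, ← Finset.card_product, ← Finset.card_product]
    refine Finset.card_le_card_of_injOn
      (fun z => ((z.1 ∩ T z.1) ∪ (z.2 \ T z.1), (z.2 ∩ T z.1) ∪ (z.1 \ T z.1))) ?_ ?_
    · rintro ⟨F, G⟩ hz
      simp only [Finset.coe_product, Set.mem_prod, Finset.mem_coe, Finset.mem_filter,
        Finset.mem_powerset] at hz ⊢
      obtain ⟨⟨hF, hAF, hBF⟩, hG⟩ := hz
      have h1 : (F ∩ T F) ∪ (G \ T F) ⊆ S :=
        Finset.union_subset (Finset.inter_subset_left.trans hF) (Finset.sdiff_subset.trans hG)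
      have h2 : (G ∩ T F) ∪ (F \ T F) ⊆ S :=
        Finset.union_subset (Finset.inter_subset_left.trans hG) (Finset.sdiff_subset.trans hF)
      refine ⟨⟨h1, hA F _ hF h1 ?_ hAF⟩, h2, hB F _ hF h2 ?_ hAF hBF⟩
      · ext e
        simp only [Finset.mem_inter, Finset.mem_union, Finset.mem_sdiff]
        tauto
      · ext e
        simp only [Finset.mem_inter, Finset.mem_union, Finset.mem_sdiff]
        tauto
    · rintro ⟨F, G⟩ hz ⟨F', G'⟩ hz' heq
      simp only [Finset.coe_product, Set.mem_prod, Finset.mem_coe, Finset.mem_filter,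
        Finset.mem_powerset] at hz hz'
      simp only [Prod.mk.injEq] at heq
      obtain ⟨⟨hF, -, -⟩, hG⟩ := hz
      obtain ⟨⟨hF', -, -⟩, hG'⟩ := hz'
      obtain ⟨e1, e2⟩ := heq
      have h1 : (F ∩ T F) ∪ (G \ T F) ⊆ S :=
        Finset.union_subset (Finset.inter_subset_left.trans hF) (Finset.sdiff_subset.trans hG)
      have h1' : (F' ∩ T F') ∪ (G' \ T F') ⊆ S :=
        Finset.union_subset (Finset.inter_subset_left.trans hF') (Finset.sdiff_subset.trans hG')
      have t1 : T ((F ∩ T F) ∪ (G \ T F)) = T F := hT F _ hF h1 (by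
        ext e
        simp only [Finset.mem_inter, Finset.mem_union, Finset.mem_sdiff]
        tauto)
      have t2 : T ((F' ∩ T F') ∪ (G' \ T F')) = T F' := hT F' _ hF' h1' (by
        ext e
        simp only [Finset.mem_inter, Finset.mem_union, Finset.mem_sdiff]
        tauto)
      have t3 : T F = T F' := by rw [← t1, ← t2, e1]
      rw [← t3] at e1 e2
      have g1 : ∀ e, e ∈ F ↔ e ∈ F' := by
        intro e
        have a1 := Finset.ext_iff.mp e1 e
        have a2 := Finset.ext_iff.mp e2 e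
        simp only [Finset.mem_inter, Finset.mem_union, Finset.mem_sdiff] at a1 a2
        by_cases he : e ∈ T F
        · simpa [he] using a1
        · simpa [he] using a2
      have g2 : ∀ e, e ∈ G ↔ e ∈ G' := by
        intro e
        have a1 := Finset.ext_iff.mp e1 e
        have a2 := Finset.ext_iff.mp e2 e
        simp only [Finset.mem_inter, Finset.mem_union, Finset.mem_sdiff] at a1 a2
        by_cases he : e ∈ T F
        · simpa [he] using a2
        · simpa [he] using a1
      rw [Finset.ext_iff.mpr g1, Finset.ext_iff.mpr g2]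
  have key' : ((Nb S (fun F => A F ∧ B' F) : ℕ) : ℝ) * 2 ^ S.card ≤ (Nb S A : ℝ) * Nb S B := by
    exact_mod_cast key
  have e2 : (1/2 : ℝ) ^ S.card * 2 ^ S.card = 1 := by
    rw [← mul_pow]; norm_num
  have hpos : (0 : ℝ) < (1/2 : ℝ) ^ S.card := by positivity
  calc (1/2 : ℝ) ^ S.card * (Nb S (fun F => A F ∧ B' F) : ℝ)
      = (1/2 : ℝ) ^ S.card * (1/2 : ℝ) ^ S.card *
          ((Nb S (fun F => A F ∧ B' F) : ℝ) * 2 ^ S.card) := by
        have : (1/2 : ℝ) ^ S.card * (1/2 : ℝ) ^ S.card *
          ((Nb S (fun F => A F ∧ B' F) : ℝ) * 2 ^ S.card) =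
          (1/2 : ℝ) ^ S.card * (Nb S (fun F => A F ∧ B' F) : ℝ) *
            ((1/2 : ℝ) ^ S.card * 2 ^ S.card) := by ring
        rw [this, e2, mul_one]
    _ ≤ (1/2 : ℝ) ^ S.card * (1/2 : ℝ) ^ S.card * ((Nb S A : ℝ) * Nb S B) :=
        mul_le_mul_of_nonneg_left key' (by positivity)
    _ = _ := by ring

end TH868.CT
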