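import Mathlib

/-!
A zero-one law from uniform lower bounds on an algebra of events.
-/

set_option autoImplicit false

namespace TH868.CT

open MeasureTheory Filter Topology

theorem zero_one {Ω : Type*} [m0 : MeasurableSpace Ω] (μ : Measure Ω) [IsProbabilityMeasure μ]
    {𝒜 : Set (Set Ω)} (h𝒜 : IsSetAlgebra 𝒜) (hm : ∀ s ∈ 𝒜, MeasurableSet s) {E : Set Ω}
    (hE : MeasurableSet[MeasurableSpace.generateFrom 𝒜] E) {c : ℝ} (hc : 0 < c)
    (h : ∀ B ∈ 𝒜, c * μ.real B ≤ μ.real (B ∩ E)) : μ.real Eᶜ = 0 := by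
  have hle : MeasurableSpace.generateFrom 𝒜 ≤ m0 := MeasurableSpace.generateFrom_le hm
  have hdense : @Measure.MeasureDense Ω (MeasurableSpace.generateFrom 𝒜) (μ.trim hle) 𝒜 :=
    @Measure.MeasureDense.of_generateFrom_isSetAlgebra_finite Ω
      (MeasurableSpace.generateFrom 𝒜) (μ.trim hle) 𝒜 _ h𝒜 rfl
  have key : ∀ ε : ℝ, 0 < ε → c * μ.real Eᶜ ≤ ε + c * ε := by
    intro ε hε
    obtain ⟨t, ht, h1⟩ := @Measure.MeasureDense.approx Ω (MeasurableSpace.generateFrom 𝒜)
      (μ.trim hle) 𝒜 hdense Eᶜ (@MeasurableSet.compl Ω E (MeasurableSpace.generateFrom 𝒜) hE)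
      (@measure_ne_top Ω (MeasurableSpace.generateFrom 𝒜) (μ.trim hle) _ _) ε hε
    have h2 : μ (symmDiff Eᶜ t) < ENNReal.ofReal ε := lt_of_le_of_lt (le_trim hle) h1
    have h3 : μ.real (symmDiff Eᶜ t) < ε := by
      rw [measureReal_def]
      calc (μ (symmDiff Eᶜ t)).toReal < (ENNReal.ofReal ε).toReal :=
            (ENNReal.toReal_lt_toReal (measure_ne_top _ _) ENNReal.ofReal_ne_top).mpr h2
        _ = ε := ENNReal.toReal_ofReal hε.le
    have h4 : μ.real (t ∩ E) ≤ μ.real (symmDiff Eᶜ t) := by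
      apply measureReal_mono
      · rintro x ⟨hx, hxE⟩
        right
        exact ⟨hx, fun hc => hc hxE⟩
      · exact measure_ne_top _ _
    have h5 : μ.real Eᶜ ≤ μ.real t + μ.real (symmDiff Eᶜ t) := by
      refine le_trans (measureReal_mono ?_ (measure_ne_top _ _))
        (measureReal_union_le _ _)
      intro x hx
      by_cases hxt : x ∈ t
      · exact Or.inl hxt
      · right
        left
        exact ⟨hx, hxt⟩
    have h6 := h t ht
    nlinarith
  have hnn : 0 ≤ μ.real Eᶜ := measureReal_nonneg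
  by_contra hne
  have hpos : 0 < μ.real Eᶜ := lt_of_le_of_ne hnn (Ne.symm hne)
  have h7 := key (c * μ.real Eᶜ / (2 * (1 + c))) (by positivity)
  have h8 : c * μ.real Eᶜ / (2 * (1 + c)) + c * (c * μ.real Eᶜ / (2 * (1 + c))) =
      c * μ.real Eᶜ / 2 := by
    field_simp
  rw [h8] at h7
  have : 0 < c * μ.real Eᶜ := by positivity
  linarith

end TH868.CT
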