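import Pool.Agent.TH868.CT.Blk
import Pool.Agent.TH868.CT.Lim
import Pool.Agent.TH868.CT.ZO

/-!
Wiener's test for the set of visited boundary points.
-/

set_option autoImplicit false
set_option maxHeartbeats 1000000

namespace TH868.CT

open H974 Finset H731C H389KP MeasureTheory Filter Topology

/-! ### The events which depend on finitely many edges -/

/-- the algebra of the events which depend on finitely many edges off the real axis -/
def Alg : Set (Set Conf) := {A | ∃ (N : ℕ) (Q : Finset Edg → Prop), A = {ω | Q (ON N ω)}}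

theorem ON_inter {N M : ℕ} (h : N ≤ M) (ω : Conf) :
    ON M ω ∩ VE (-(N : ℤ)) N 0 N = ON N ω := by
  ext e
  unfold ON
  rw [Finset.mem_inter, mem_GO, mem_GO]
  constructor
  · rintro ⟨⟨_, h2⟩, h3⟩
    exact ⟨h3, h2⟩
  · rintro ⟨h1, h2⟩
    exact ⟨⟨VE_mono (by omega) (by omega) (by omega) h1, h2⟩, h1⟩

theorem Alg_isSetAlgebra : IsSetAlgebra Alg where
  empty_mem := ⟨0, fun _ => False, by ext ω; simp⟩
  compl_mem := by
    rintro _ ⟨N, Q, rfl⟩
    exact ⟨N, fun F => ¬ Q F, rfl⟩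
  union_mem := by
    rintro _ _ ⟨N, Q, rfl⟩ ⟨M, Q', rfl⟩
    refine ⟨max N M, fun F => Q (F ∩ VE (-(N : ℤ)) N 0 N) ∨ Q' (F ∩ VE (-(M : ℤ)) M 0 M), ?_⟩
    ext ω
    show (Q (ON N ω) ∨ Q' (ON M ω)) ↔ _
    rw [← ON_inter (le_max_left N M) ω, ← ON_inter (le_max_right N M) ω]
    rfl

theorem meas_ON (N : ℕ) (Q : Finset Edg → Prop) : MeasurableSet {ω : Conf | Q (ON N ω)} := by
  classical
  have hU : {ω : Conf | Q (ON N ω)} = ⋃ T ∈ (VE (-(N : ℤ)) N 0 N).powerset.filter Q,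
      {ω | GO tn (VE (-(N : ℤ)) N 0 N) ω = T} := by
    ext ω
    simp only [Set.mem_iUnion, Finset.mem_filter, Finset.mem_powerset]
    constructor
    · intro h
      exact ⟨ON N ω, ⟨Finset.filter_subset _ _, h⟩, rfl⟩
    · rintro ⟨T, ⟨-, hQ⟩, hω⟩
      have hω' : ON N ω = T := hω
      show Q (ON N ω)
      rw [hω']; exact hQ
  rw [hU]
  exact Finset.measurableSet_biUnion _ (fun T _ => meas_GO (tn_inj N) T)

theorem Alg_meas : ∀ s ∈ Alg, MeasurableSet s := by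
  rintro _ ⟨N, Q, rfl⟩
  exact meas_ON N Q

theorem Cm_iUnion (x : ℤ) : {ω : Conf | ((x, 0) : ℤ × ℕ) ∈ Cm ω} =
    ⋃ N : ℕ, {ω | WX 0 (ON N ω) (x, 0)} := by
  ext ω
  rw [Set.mem_iUnion]
  constructor
  · intro h
    obtain ⟨N, hN⟩ := Cm_reach h
    exact ⟨N, hN⟩
  · rintro ⟨N, hN⟩
    have h2 : W (ON N ω) ((x, 0) : Vtx) := hN
    exact (reach_Cm h2).2

theorem Cm_gen (x : ℤ) :
    MeasurableSet[MeasurableSpace.generateFrom Alg] {ω : Conf | ((x, 0) : ℤ × ℕ) ∈ Cm ω} := by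
  rw [Cm_iUnion]
  apply MeasurableSet.iUnion
  intro N
  exact MeasurableSpace.measurableSet_generateFrom ⟨N, fun F => WX 0 F (x, 0), rfl⟩

/-- infinitely many points of `S` are visited -/
theorem inf_gen {S : Set ℤ} (hS : ∀ x ∈ S, 1 ≤ x) : MeasurableSet[MeasurableSpace.generateFrom Alg]
    {ω : Conf | {x | x ∈ S ∧ ((x, 0) : ℤ × ℕ) ∈ Cm ω}.Infinite} := by
  have e : {ω : Conf | {x | x ∈ S ∧ ((x, 0) : ℤ × ℕ) ∈ Cm ω}.Infinite} =
      ⋂ n : ℕ, ⋃ x ∈ {x : ℤ | x ∈ S ∧ (n : ℤ) ≤ x}, {ω : Conf | ((x, 0) : ℤ × ℕ) ∈ Cm ω} := by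
    ext ω
    rw [Set.mem_iInter]
    constructor
    · intro h n
      rw [Set.mem_iUnion₂]
      by_contra hcon
      push Not at hcon
      apply h
      apply (Set.finite_Icc (1 : ℤ) n).subset
      rintro x ⟨hx, hC⟩
      refine ⟨hS x hx, ?_⟩
      by_contra hlt
      push Not at hlt
      exact hcon x ⟨hx, hlt.le⟩ hC
    · intro h hfin
      obtain ⟨A, hA⟩ := hfin.bddAbove
      have h1 := h (A.toNat + 1)
      rw [Set.mem_iUnion₂] at h1
      obtain ⟨x, ⟨hx, hxn⟩, hC⟩ := h1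
      have h2 : x ≤ A := hA ⟨hx, hC⟩
      push_cast at hxn
      omega
  rw [e]
  apply MeasurableSet.iInter
  intro n
  apply MeasurableSet.biUnion (Set.to_countable _)
  intro x _
  exact Cm_gen x

/-! ### The divergence part -/

theorem div_main {T : ℕ → Finset ℤ} {u : ℕ → ℤ → ℝ}
    (hT : ∀ k, ∀ x ∈ T k, 1 ≤ x ∧ (2 : ℤ) ^ k ≤ x ∧ 0 ≤ u k x)
    (hsep : ∀ j k, j < k → ∀ x ∈ T j, ∀ y ∈ T k, 2 * x ≤ y)
    (hen : ∀ k, en (T k) (u k) ≤ 2 * ∑ x ∈ T k, u k x)
    (hdiv : ¬ Summable (fun k => ∑ x ∈ T k, u k x)) :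
    ∀ᵐ ω ∂perc, {x : ℤ | (∃ k, x ∈ T k) ∧ ((x, 0) : ℤ × ℕ) ∈ Cm ω}.Infinite := by
  obtain ⟨c₁, c₂, hc₁, hc₂, hb⟩ := block_bound2
  set E : Set Conf := {ω | {x : ℤ | x ∈ {x : ℤ | ∃ k, x ∈ T k} ∧
    ((x, 0) : ℤ × ℕ) ∈ Cm ω}.Infinite} with hE
  have hS1 : ∀ x ∈ {x : ℤ | ∃ k, x ∈ T k}, 1 ≤ x := by
    rintro x ⟨k, hx⟩
    exact (hT k x hx).1
  have hEm := inf_gen hS1
  rw [← hE] at hEm
  have key : ∀ B ∈ Alg, c₂ * perc.real B ≤ perc.real (B ∩ E) := by
    rintro _ ⟨R, Q, rfl⟩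
    set B : Set Conf := {ω | Q (ON R ω)} with hB
    -- forget the first blocks
    obtain ⟨k₀, hk₀⟩ : ∃ k₀ : ℕ, 3 * ((R : ℤ) + 1) ≤ 2 ^ k₀ := by
      obtain ⟨k, hk⟩ := pow_unbounded_of_one_lt (3 * ((R : ℤ) + 1)) (by norm_num : (1 : ℤ) < 2)
      exact ⟨k, hk.le⟩
    set T' : ℕ → Finset ℤ := fun k => T (k + k₀) with hT'
    set u' : ℕ → ℤ → ℝ := fun k => u (k + k₀) with hu'
    have hw0 : ∀ k, 0 ≤ ∑ x ∈ T' k, u' k x := fun k =>
      Finset.sum_nonneg (fun x hx => (hT _ x hx).2.2)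
    have hdiv' : ¬ Summable (fun k => ∑ x ∈ T' k, u' k x) := fun h =>
      hdiv ((summable_nat_add_iff k₀).mp h)
    rw [not_summable_iff_tendsto_nat_atTop_of_nonneg hw0] at hdiv'
    have hT'R : ∀ k, ∀ x ∈ T' k, 3 * ((R : ℤ) + 1) ≤ x := by
      intro k x hx
      have h1 := (hT (k + k₀) x hx).2.1
      have h2 : (2 : ℤ) ^ k₀ ≤ 2 ^ (k + k₀) := pow_le_pow_right₀ (by norm_num) (by omega)
      omega
    set D : ℕ → Set Conf := fun M => {ω | ∃ n N : ℕ, (M : ℝ) ≤ XX R n T' u' (ON N ω)} with hD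
    have hDm : ∀ M, MeasurableSet (D M) := by
      intro M
      have : D M = ⋃ n : ℕ, ⋃ N : ℕ, {ω : Conf | (M : ℝ) ≤ XX R n T' u' (ON N ω)} := by
        ext ω
        simp only [Set.mem_iUnion]
        rfl
      rw [this]
      apply MeasurableSet.iUnion
      intro n
      apply MeasurableSet.iUnion
      intro N
      exact meas_ON N (fun F => (M : ℝ) ≤ XX R n T' u' F)
    have hDanti : Antitone D := by
      rintro M M' hMM ω ⟨n, N, h⟩
      refine ⟨n, N, le_trans ?_ h⟩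
      exact_mod_cast hMM
    have hBm : MeasurableSet B := meas_ON R Q
    -- each event has a large conditional probability
    have h1 : ∀ M, c₂ * perc.real B ≤ perc.real (B ∩ D M) := by
      intro M
      obtain ⟨n, hn⟩ := (tendsto_atTop.mp hdiv' (max 1 (2 * M / c₁))).exists
      have hn1 := (le_max_left _ _).trans hn
      have hn2 := (le_max_right _ _).trans hn
      obtain ⟨M', hM'⟩ := exists_box ((range n).biUnion T')
      set N : ℕ := max M' R with hN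
      have h2 := hb R N n T' u' Q (by omega) (by omega)
        (fun k hk x hx => ⟨hT'R k x hx, by
          have := hM' x (Finset.mem_biUnion.mpr ⟨k, Finset.mem_range.mpr hk, hx⟩)
          omega, (hT _ x hx).2.2⟩)
        (fun j k hjk _ x hx y hy => hsep _ _ (by omega) x hx y hy)
        (fun k _ => hen _) hn1
      rw [← ON_event, ← ON_event] at h2
      have e1 : {ω : Conf | Q (ON N ω ∩ VE (-(R : ℤ)) R 0 R)} = B := by
        ext ω
        show Q (ON N ω ∩ VE (-(R : ℤ)) R 0 R) ↔ Q (ON R ω)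
        rw [ON_inter (by omega)]
      rw [e1] at h2
      refine h2.trans (measureReal_mono ?_ (measure_ne_top _ _))
      rintro ω ⟨hω1, hω2⟩
      rw [ON_inter (by omega)] at hω1
      refine ⟨hω1, n, N, le_trans ?_ hω2⟩
      rw [div_le_iff₀ hc₁] at hn2
      rw [le_div_iff₀ (by norm_num : (0:ℝ) < 2)]
      linarith
    -- the limit
    have h3 : c₂ * perc.real B ≤ perc.real (⋂ M, B ∩ D M) := by
      have ht := tendsto_measure_iInter_atTop (μ := perc) (s := fun M => B ∩ D M)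
        (fun M => (hBm.inter (hDm M)).nullMeasurableSet)
        (fun M M' h => Set.inter_subset_inter_right _ (hDanti h)) ⟨0, measure_ne_top _ _⟩
      have ht2 := (ENNReal.tendsto_toReal (measure_ne_top perc _)).comp ht
      exact ge_of_tendsto' ht2 h1
    refine h3.trans (measureReal_mono ?_ (measure_ne_top _ _))
    intro ω hω
    rw [Set.mem_iInter] at hω
    refine ⟨(hω 0).1, ?_⟩
    -- finitely many visited points: bounded sums
    show Set.Infinite _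
    intro hfin
    obtain ⟨A, hA⟩ := hfin.bddAbove
    obtain ⟨k₁, hk₁⟩ : ∃ k₁ : ℕ, A < 2 ^ k₁ := pow_unbounded_of_one_lt A (by norm_num)
    set b : ℕ → ℝ := fun k => ∑ x ∈ T' k, u' k x / ps x with hb'
    have hb0 : ∀ k, 0 ≤ b k := fun k => Finset.sum_nonneg (fun x hx =>
      div_nonneg (hT _ x hx).2.2 (ps_pos (by have := (hT _ x hx).1; omega)).le)
    have hbound : ∀ n N : ℕ, XX R n T' u' (ON N ω) ≤ ∑ k ∈ range k₁, b k := by
      intro n N
      have h4 : ∀ k, Zg (UF R) (T' k) (u' k) (ON N ω) ≤ if k < k₁ then b k else 0 := by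
        intro k
        split_ifs with hk
        · exact Zg_le (fun x hx => (hT _ x hx).1) (fun x hx => (hT _ x hx).2.2) _
        · apply le_of_eq
          unfold Zg
          apply Finset.sum_eq_zero
          intro x hx
          have h5 : ¬ UF R x (ON N ω) := by
            intro hU
            have h6 : W (ON N ω) ((x, 0) : Vtx) := UF_WX hU
            have h7 := (reach_Cm h6).2
            have h8 : x ≤ A := hA ⟨⟨k + k₀, hx⟩, h7⟩
            have h9 := (hT (k + k₀) x hx).2.1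
            have h10 : (2 : ℤ) ^ k₁ ≤ 2 ^ (k + k₀) := pow_le_pow_right₀ (by norm_num) (by omega)
            omega
          rw [ind_not_of h5, mul_zero]
      unfold XX
      calc ∑ k ∈ range n, Zg (UF R) (T' k) (u' k) (ON N ω)
          ≤ ∑ k ∈ range n, (if k < k₁ then b k else 0) := Finset.sum_le_sum (fun k _ => h4 k)
        _ = ∑ k ∈ (range n).filter (· < k₁), b k := by rw [Finset.sum_filter]
        _ ≤ ∑ k ∈ range k₁, b k := by
            apply Finset.sum_le_sum_of_subset_of_nonneg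
            · intro k hk
              rw [Finset.mem_range]
              exact (Finset.mem_filter.mp hk).2
            · intro k _ _
              exact hb0 k
    obtain ⟨M, hM⟩ := exists_nat_gt (∑ k ∈ range k₁, b k)
    obtain ⟨n, N, h11⟩ := (hω M).2
    have := hbound n N
    linarith
  have h0 := zero_one perc Alg_isSetAlgebra Alg_meas hEm hc₂ key
  rw [measureReal_def, ENNReal.toReal_eq_zero_iff] at h0
  rcases h0 with h0 | h0
  · rw [ae_iff]
    exact h0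
  · exact absurd h0 (measure_ne_top _ _)

/-- almost optimal weights -/
theorem cap_witness {S : Set ℤ} (hS : ∀ x ∈ S, 1 ≤ x) : ∃ (T : Finset ℤ) (u : ℤ → ℝ),
    (∀ x ∈ T, x ∈ S ∧ 0 ≤ u x) ∧ ∑ x ∈ T, u x = cap S ∧ en T u ≤ 2 * ∑ x ∈ T, u x := by
  rcases (cap_nonneg hS).eq_or_lt with h0 | h0
  · refine ⟨∅, 0, by simp, ?_, ?_⟩
    · rw [← h0]; simp
    · unfold en; simp
  · have hlt : cap S / 2 < cap S := by linarith
    have hne : {r | ∃ (T : Finset ℤ) (v : ℤ → ℝ), (∀ x ∈ T, x ∈ S ∧ 0 ≤ v x) ∧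
        ∑ x ∈ T, v x = 1 ∧ r = 1 / ∑ x ∈ T, ∑ y ∈ T, v x * v y * kern x y}.Nonempty := by
      by_contra hemp
      rw [Set.not_nonempty_iff_eq_empty] at hemp
      unfold cap at h0
      rw [hemp, Real.sSup_empty] at h0
      exact lt_irrefl _ h0
    obtain ⟨r, ⟨T, v, h1, h2, rfl⟩, h3⟩ := exists_lt_of_lt_csSup hne hlt
    have hen := en_ge (S := T) (fun x hx => hS x (h1 x hx).1) (v := v) (fun x hx => (h1 x hx).2)
    rw [h2] at hen
    have hen0 : 0 < en T v := by linarith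
    refine ⟨T, fun x => cap S * v x, fun x hx => ⟨(h1 x hx).1,
      mul_nonneg h0.le (h1 x hx).2⟩, ?_, ?_⟩
    · rw [← Finset.mul_sum, h2, mul_one]
    · rw [← Finset.mul_sum, h2, mul_one]
      have e : en T (fun x => cap S * v x) = cap S * (cap S * en T v) := by
        unfold en
        simp only [Finset.mul_sum]
        apply Finset.sum_congr rfl
        intro x _
        apply Finset.sum_congr rfl
        intro y _
        ring
      rw [e]
      have h4 : cap S / 2 < 1 / en T v := h3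
      rw [lt_div_iff₀ hen0] at h4
      nlinarith

/-- the dyadic pieces -/
def pc (S : Set ℤ) (k : ℕ) : Set ℤ := {x | x ∈ S ∧ (2 : ℤ) ^ k ≤ x ∧ x < 2 ^ (k + 1)}

theorem pc_pos {S : Set ℤ} {k : ℕ} : ∀ x ∈ pc S k, 1 ≤ x := by
  rintro x ⟨-, h, -⟩
  have : (1 : ℤ) ≤ 2 ^ k := one_le_pow₀ (by norm_num)
  omega

theorem wiener_div {S : Set ℤ} (h : ¬ Summable (fun k => cap (pc S k))) :
    ∀ᵐ ω ∂perc, {x : ℤ | x ∈ S ∧ ((x, 0) : ℤ × ℕ) ∈ Cm ω}.Infinite := by
  -- choose the parity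
  obtain ⟨p, hp⟩ : ∃ p : ℕ, ¬ Summable (fun k => cap (pc S (2 * k + p))) := by
    by_contra hcon
    push Not at hcon
    exact h (Summable.even_add_odd (hcon 0) (hcon 1))
  choose T u h1 h2 h3 using fun k => cap_witness (S := pc S (2 * k + p)) pc_pos
  have hdiv : ¬ Summable (fun k => ∑ x ∈ T k, u k x) := by
    simp only [h2]
    exact hp
  have hmain := div_main (T := T) (u := u)
    (fun k x hx => by
      obtain ⟨⟨hx1, hx2, hx3⟩, hx4⟩ := h1 k x hx
      have h4 : (1 : ℤ) ≤ 2 ^ (2 * k + p) := one_le_pow₀ (by norm_num)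
      have h5 : (2 : ℤ) ^ k ≤ 2 ^ (2 * k + p) := pow_le_pow_right₀ (by norm_num) (by omega)
      exact ⟨by omega, by omega, hx4⟩)
    (fun j k hjk x hx y hy => by
      obtain ⟨⟨hx1, hx2, hx3⟩, hx4⟩ := h1 j x hx
      obtain ⟨⟨hy1, hy2, hy3⟩, hy4⟩ := h1 k y hy
      have h5 : (2 : ℤ) ^ (2 * j + p + 2) ≤ 2 ^ (2 * k + p) :=
        pow_le_pow_right₀ (by norm_num) (by omega)
      have h6 : (2 : ℤ) ^ (2 * j + p + 2) = 2 * 2 ^ (2 * j + p + 1) := by ring
      omega)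
    h3 hdiv
  filter_upwards [hmain] with ω hω
  refine hω.mono ?_
  rintro x ⟨⟨k, hk⟩, hC⟩
  exact ⟨(h1 k x hk).1.1, hC⟩

theorem wiener_conv {S : Set ℤ} (hS : ∀ x ∈ S, 1 ≤ x) (h : Summable (fun k => cap (pc S k))) :
    ∀ᵐ ω ∂perc, {x : ℤ | x ∈ S ∧ ((x, 0) : ℤ × ℕ) ∈ Cm ω}.Finite := by
  obtain ⟨c, C, -, hC, hmain⟩ := cap_main
  have h1 : (∑' k, perc {ω | ∃ x ∈ pc S k, ((x, 0) : ℤ × ℕ) ∈ Cm ω}) ≠ ⊤ := by
    have h2 : ∀ k, perc {ω | ∃ x ∈ pc S k, ((x, 0) : ℤ × ℕ) ∈ Cm ω} ≤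
        ENNReal.ofReal (C * cap (pc S k)) := by
      intro k
      rw [← ENNReal.ofReal_toReal (measure_ne_top perc
        {ω | ∃ x ∈ pc S k, ((x, 0) : ℤ × ℕ) ∈ Cm ω})]
      exact ENNReal.ofReal_le_ofReal (hmain (pc S k) pc_pos).2
    have h3 : Summable (fun k => C * cap (pc S k)) := h.mul_left C
    refine ne_top_of_le_ne_top ?_ (ENNReal.tsum_le_tsum h2)
    exact h3.tsum_ofReal_ne_top
  filter_upwards [ae_eventually_notMem h1] with ω hω
  rw [eventually_atTop] at hω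
  obtain ⟨k₀, hk₀⟩ := hω
  apply (Set.finite_Icc (1 : ℤ) (2 ^ k₀)).subset
  rintro x ⟨hx, hxC⟩
  refine ⟨hS x hx, ?_⟩
  by_contra hlt
  push Not at hlt
  have hx1 := hS x hx
  -- the dyadic piece of `x`
  have hpos : x.toNat ≠ 0 := by omega
  set k := Nat.log 2 x.toNat with hk
  have h4 : 2 ^ k ≤ x.toNat := Nat.pow_log_le_self 2 hpos
  have h5 : x.toNat < 2 ^ (k + 1) := Nat.lt_pow_succ_log_self (by norm_num) _
  have h6 : (2 : ℤ) ^ k ≤ x := by
    have : ((2 ^ k : ℕ) : ℤ) ≤ (x.toNat : ℤ) := by exact_mod_cast h4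
    push_cast at this
    omega
  have h7 : x < (2 : ℤ) ^ (k + 1) := by
    have : (x.toNat : ℤ) < ((2 ^ (k + 1) : ℕ) : ℤ) := by exact_mod_cast h5
    push_cast at this
    omega
  have h8 : k₀ ≤ k := by
    by_contra hcon
    push Not at hcon
    have : (2 : ℤ) ^ (k + 1) ≤ 2 ^ k₀ := pow_le_pow_right₀ (by norm_num) (by omega)
    omega
  exact hk₀ k h8 ⟨x, ⟨hx, h6, h7⟩, hxC⟩

end TH868.CT
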